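import Pool.Agent.R251.Nec.Grid
import Mathlib.Analysis.Calculus.BumpFunction.FiniteDimension
import Mathlib.Analysis.Calculus.Gradient.Basic

set_option autoImplicit false

/-! A conservative field which is constant on small balls. -/

open Set Filter Topology Metric
open scoped ContDiff

namespace Pool.Agent.J4.H89.NC

open Pool.Agent.H810R3.Tub (Vec)

variable {d : ℕ}

/-- The bump function. -/
noncomputable def chi (d : ℕ) : ContDiffBump (0 : Vec d) := ⟨1 / 2, 1, by norm_num, by norm_num⟩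

/-- The cut off identity. -/
noncomputable def gm (d : ℕ) (u : Vec d) : Vec d := chi d u • u

theorem gm_contDiff (d : ℕ) : ContDiff ℝ ∞ (gm d) := by
  unfold gm
  exact (chi d).contDiff.smul contDiff_id

theorem gm_in {u : Vec d} (hu : ‖u‖ ≤ 1 / 2) : gm d u = u := by
  unfold gm
  rw [(chi d).one_of_mem_closedBall (by rw [mem_closedBall, dist_zero_right]; exact hu), one_smul]

theorem gm_out {u : Vec d} (hu : 1 ≤ ‖u‖) : gm d u = 0 := by
  unfold gm
  rw [(chi d).zero_of_le_dist (by rw [dist_zero_right]; exact hu), zero_smul]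

theorem gm_bound (d m : ℕ) : ∃ G : ℝ, 1 ≤ G ∧ ∀ j ≤ m, ∀ u, ‖iteratedFDeriv ℝ j (gm d) u‖ ≤ G := by
  have h1 : ∀ j : ℕ, ∃ G : ℝ, ∀ u, ‖iteratedFDeriv ℝ j (gm d) u‖ ≤ G := by
    intro j
    have hc : Continuous (iteratedFDeriv ℝ j (gm d)) :=
      (gm_contDiff d).continuous_iteratedFDeriv (by exact_mod_cast (le_top : (j : ℕ∞) ≤ ⊤))
    have hs : HasCompactSupport (gm d) := by
      refine HasCompactSupport.intro (isCompact_closedBall (0 : Vec d) 1) ?_
      intro u hu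
      rw [mem_closedBall, dist_zero_right, not_le] at hu
      exact gm_out hu.le
    exact (hs.iteratedFDeriv j).exists_bound_of_continuous hc
  choose G hG using h1
  refine ⟨1 + ∑ j ∈ Finset.range (m + 1), |G j|, ?_, ?_⟩
  · have : 0 ≤ ∑ j ∈ Finset.range (m + 1), |G j| := Finset.sum_nonneg fun _ _ => abs_nonneg _
    linarith
  · intro j hj u
    have h2 : |G j| ≤ ∑ j ∈ Finset.range (m + 1), |G j| :=
      Finset.single_le_sum (f := fun j => |G j|) (fun _ _ => abs_nonneg _) (Finset.mem_range.2 (by omega))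
    linarith [hG j u, le_abs_self (G j)]

/-- One piece of the potential. -/
noncomputable def pie (ρ : ℝ) (b w : Vec d) (v : Vec d) : ℝ :=
  ρ * inner ℝ b (gm d (ρ⁻¹ • (v - w)))

theorem pie_contDiff (ρ : ℝ) (b w : Vec d) : ContDiff ℝ ∞ (pie ρ b w) := by
  unfold pie
  have h1 : ContDiff ℝ ∞ (fun v : Vec d => ρ⁻¹ • (v - w)) := by fun_prop
  have h2 := (gm_contDiff d).comp h1
  exact contDiff_const.mul (contDiff_const.inner ℝ h2)

theorem pie_bound {m : ℕ} {G : ℝ} (hG : ∀ j ≤ m, ∀ u, ‖iteratedFDeriv ℝ j (gm d) u‖ ≤ G) {ρ : ℝ}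
    (hρ : 0 < ρ) (b w : Vec d) {j : ℕ} (hj : j ≤ m) (v : Vec d) :
    ‖iteratedFDeriv ℝ j (pie ρ b w) v‖ ≤ ρ * ‖b‖ * G * ρ⁻¹ ^ j := by
  set L : Vec d →L[ℝ] ℝ := ρ • (innerSL ℝ b) with hL
  set S : Vec d →L[ℝ] Vec d := ρ⁻¹ • ContinuousLinearMap.id ℝ (Vec d) with hS
  have e : pie ρ b w = fun v => (L ∘ (gm d ∘ S)) (v - w) := by
    funext v
    simp [pie, hL, hS]
  have hLn : ‖L‖ ≤ ρ * ‖b‖ := by
    rw [hL, norm_smul, innerSL_apply_norm, Real.norm_of_nonneg hρ.le]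
  have hSn : ‖S‖ ≤ ρ⁻¹ := by
    rw [hS, norm_smul, Real.norm_of_nonneg (by positivity)]
    calc ρ⁻¹ * ‖ContinuousLinearMap.id ℝ (Vec d)‖ ≤ ρ⁻¹ * 1 := by
          apply mul_le_mul_of_nonneg_left ContinuousLinearMap.norm_id_le (by positivity)
      _ = ρ⁻¹ := mul_one _
  have hj' : (j : WithTop ℕ∞) ≤ ∞ := by exact_mod_cast (le_top : (j : ℕ∞) ≤ ⊤)
  have hg : ContDiff ℝ ∞ (gm d ∘ S) := (gm_contDiff d).comp S.contDiff
  have hG0 : 0 ≤ G := (norm_nonneg _).trans (hG 0 (Nat.zero_le _) 0)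
  rw [e, iteratedFDeriv_comp_sub]
  refine (L.norm_iteratedFDeriv_comp_left hg.contDiffAt hj').trans ?_
  rw [S.iteratedFDeriv_comp_right (gm_contDiff d) _ hj']
  have h2 : ‖(iteratedFDeriv ℝ j (gm d) (S (v - w))).compContinuousLinearMap fun _ => S‖ ≤
      G * ρ⁻¹ ^ j := by
    refine (ContinuousMultilinearMap.norm_compContinuousLinearMap_le _ _).trans ?_
    rw [Finset.prod_const, Finset.card_univ, Fintype.card_fin]
    exact mul_le_mul (hG j hj _) (pow_le_pow_left₀ (norm_nonneg _) hSn _) (by positivity) hG0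
  calc ‖L‖ * ‖(iteratedFDeriv ℝ j (gm d) (S (v - w))).compContinuousLinearMap fun _ => S‖
      ≤ (ρ * ‖b‖) * (G * ρ⁻¹ ^ j) := mul_le_mul hLn h2 (norm_nonneg _) (by positivity)
    _ = _ := by ring

theorem pie_out {ρ : ℝ} (hρ : 0 < ρ) (b w : Vec d) {v : Vec d} (hv : ρ ≤ ‖v - w‖) : pie ρ b w v = 0 := by
  unfold pie
  rw [gm_out, inner_zero_right, mul_zero]
  rw [norm_smul, norm_inv, Real.norm_of_nonneg hρ.le, ← div_eq_inv_mul, le_div_iff₀ hρ, one_mul]
  exact hv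

theorem pie_in {ρ : ℝ} (hρ : 0 < ρ) (b w : Vec d) {v : Vec d} (hv : ‖v - w‖ ≤ ρ / 2) :
    pie ρ b w v = inner ℝ b (v - w) := by
  unfold pie
  rw [gm_in, inner_smul_right, ← mul_assoc, mul_inv_cancel₀ hρ.ne', one_mul]
  rw [norm_smul, norm_inv, Real.norm_of_nonneg hρ.le, ← div_eq_inv_mul, div_le_iff₀ hρ]
  linarith

theorem pie_grad_out {ρ : ℝ} (hρ : 0 < ρ) (b w : Vec d) {v : Vec d} (hv : ρ < ‖v - w‖) :
    pie ρ b w =ᶠ[𝓝 v] fun _ => 0 := by
  have h1 : {z : Vec d | ρ < ‖z - w‖} ∈ 𝓝 v :=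
    (isOpen_lt continuous_const (by fun_prop)).mem_nhds hv
  filter_upwards [h1] with z hz
  exact pie_out hρ b w (le_of_lt hz)

theorem pie_grad_in {ρ : ℝ} (hρ : 0 < ρ) (b w : Vec d) {v : Vec d} (hv : ‖v - w‖ < ρ / 2) :
    pie ρ b w =ᶠ[𝓝 v] fun z => inner ℝ b (z - w) := by
  have h1 : {z : Vec d | ‖z - w‖ < ρ / 2} ∈ 𝓝 v :=
    (isOpen_lt (by fun_prop) continuous_const).mem_nhds hv
  filter_upwards [h1] with z hz
  exact pie_in hρ b w (le_of_lt hz)

theorem grad_inner (b w v : Vec d) : gradient (fun z : Vec d => (inner ℝ b (z - w) : ℝ)) v = b := by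
  apply HasGradientAt.gradient
  rw [hasGradientAt_iff_hasFDerivAt]
  have h1 : (fun z : Vec d => (inner ℝ b (z - w) : ℝ)) = fun z => (innerSL ℝ b) (z - w) := by
    funext z
    simp
  rw [h1]
  have h2 : HasFDerivAt (fun z : Vec d => (innerSL ℝ b) (z - w)) (innerSL ℝ b) v := by
    have h3 : HasFDerivAt (fun z : Vec d => z - w) (ContinuousLinearMap.id ℝ (Vec d)) v :=
      (hasFDerivAt_id v).sub_const w
    have h4 := (innerSL ℝ b).hasFDerivAt (x := v - w)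
    have h5 := h4.comp v h3
    rw [ContinuousLinearMap.comp_id] at h5
    exact h5
  exact h2

/-- The potential. -/
noncomputable def pot {ι : Type} [Fintype ι] (ρ : ℝ) (b w : ι → Vec d) (v : Vec d) : ℝ :=
  ∑ i, pie ρ (b i) (w i) v

variable {ι : Type} [Fintype ι]

theorem pot_contDiff (ρ : ℝ) (b w : ι → Vec d) : ContDiff ℝ ∞ (pot ρ b w) := by
  unfold pot
  exact ContDiff.sum fun i _ => pie_contDiff ρ (b i) (w i)

theorem pot_bound {m : ℕ} {G B : ℝ} (hG : ∀ j ≤ m, ∀ u, ‖iteratedFDeriv ℝ j (gm d) u‖ ≤ G) {ρ : ℝ}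
    (hρ : 0 < ρ) (b w : ι → Vec d) (hb : ∀ i, ‖b i‖ ≤ B) (hB : 0 ≤ B)
    (hsep : ∀ i j, i ≠ j → 2 * ρ < ‖w i - w j‖) {j : ℕ} (hj : j ≤ m) (v : Vec d) :
    ‖iteratedFDeriv ℝ j (pot ρ b w) v‖ ≤ ρ * B * G * ρ⁻¹ ^ j := by
  classical
  have hj' : (j : WithTop ℕ∞) ≤ ∞ := by exact_mod_cast (le_top : (j : ℕ∞) ≤ ⊤)
  have hG0 : 0 ≤ G := (norm_nonneg _).trans (hG 0 (Nat.zero_le _) 0)
  have e : iteratedFDeriv ℝ j (pot ρ b w) v = ∑ i, iteratedFDeriv ℝ j (pie ρ (b i) (w i)) v := by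
    have h := iteratedFDeriv_fun_sum_apply (𝕜 := ℝ) (f := fun i => pie ρ (b i) (w i)) (u := Finset.univ)
      (n := j) (x := v) (fun i _ => ((pie_contDiff ρ (b i) (w i)).of_le hj').contDiffAt)
    exact h
  rw [e]
  have hzero : ∀ i, ρ < ‖v - w i‖ → iteratedFDeriv ℝ j (pie ρ (b i) (w i)) v = 0 := by
    intro i hi
    have h1 := (pie_grad_out hρ (b i) (w i) hi).iteratedFDeriv ℝ j
    rw [h1.eq_of_nhds]
    have h2 : iteratedFDeriv ℝ j (fun _ : Vec d => (0:ℝ)) = 0 := iteratedFDeriv_fun_zero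
    rw [h2]
    rfl
  by_cases hex : ∃ i, ‖v - w i‖ ≤ ρ
  · obtain ⟨i, hi⟩ := hex
    rw [Finset.sum_eq_single i]
    · refine (pie_bound hG hρ (b i) (w i) hj v).trans ?_
      have : ‖b i‖ ≤ B := hb i
      gcongr
    · intro k _ hk
      apply hzero
      have h1 := hsep i k (Ne.symm hk)
      have h2 : ‖w i - w k‖ ≤ ‖v - w i‖ + ‖v - w k‖ := by
        have : w i - w k = (v - w k) - (v - w i) := by abel
        rw [this]
        linarith [norm_sub_le (v - w k) (v - w i)]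
      linarith
    · intro h
      exact absurd (Finset.mem_univ i) h
  · push Not at hex
    rw [Finset.sum_eq_zero (fun i _ => hzero i (hex i)), norm_zero]
    positivity

theorem pot_grad_in {ρ : ℝ} (hρ : 0 < ρ) (b w : ι → Vec d)
    (hsep : ∀ i j, i ≠ j → 2 * ρ < ‖w i - w j‖) (i : ι) {v : Vec d} (hv : ‖v - w i‖ < ρ / 2) :
    gradient (pot ρ b w) v = b i := by
  classical
  have h1 : pot ρ b w =ᶠ[𝓝 v] fun z => inner ℝ (b i) (z - w i) := by
    have h2 : ∀ k, k ≠ i → ∀ᶠ z in 𝓝 v, pie ρ (b k) (w k) z = 0 := by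
      intro k hk
      apply pie_grad_out hρ
      have h1 := hsep i k (Ne.symm hk)
      have h2 : ‖w i - w k‖ ≤ ‖v - w i‖ + ‖v - w k‖ := by
        have : w i - w k = (v - w k) - (v - w i) := by abel
        rw [this]
        linarith [norm_sub_le (v - w k) (v - w i)]
      linarith
    have h3 : ∀ᶠ z in 𝓝 v, ∀ k, k ≠ i → pie ρ (b k) (w k) z = 0 := by
      rw [Filter.eventually_all]
      intro k
      by_cases hk : k = i
      · exact Filter.Eventually.of_forall fun z h => absurd hk h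
      · filter_upwards [h2 k hk] with z hz _
        exact hz
    filter_upwards [h3, pie_grad_in hρ (b i) (w i) hv] with z hz1 hz2
    unfold pot
    rw [Finset.sum_eq_single i (fun k _ hk => hz1 k hk) (fun h => absurd (Finset.mem_univ i) h)]
    exact hz2
  rw [h1.gradient_eq, grad_inner]

theorem pot_grad_out {ρ : ℝ} (hρ : 0 < ρ) (b w : ι → Vec d) {v : Vec d} (hv : ∀ i, ρ < ‖v - w i‖) :
    gradient (pot ρ b w) v = 0 := by
  have h1 : pot ρ b w =ᶠ[𝓝 v] fun _ => 0 := by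
    have h3 : ∀ᶠ z in 𝓝 v, ∀ k, pie ρ (b k) (w k) z = 0 := by
      rw [Filter.eventually_all]
      intro k
      exact pie_grad_out hρ (b k) (w k) (hv k)
    filter_upwards [h3] with z hz
    unfold pot
    exact Finset.sum_eq_zero fun k _ => hz k
  rw [h1.gradient_eq, gradient_fun_const]

theorem norm_gradient (φ : Vec d → ℝ) (v : Vec d) : ‖gradient φ v‖ = ‖iteratedFDeriv ℝ 1 φ v‖ := by
  rw [norm_iteratedFDeriv_one]
  unfold gradient
  rw [LinearIsometryEquiv.norm_map]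

/-- The derivatives of the gradient. -/
theorem norm_iter_gradient (φ : Vec d → ℝ) (j : ℕ) (v : Vec d) :
    ‖iteratedFDeriv ℝ j (gradient φ) v‖ = ‖iteratedFDeriv ℝ (j + 1) φ v‖ := by
  have e : gradient φ = (InnerProductSpace.toDual ℝ (Vec d)).symm ∘ (fderiv ℝ φ) := rfl
  rw [e, LinearIsometryEquiv.norm_iteratedFDeriv_comp_left, norm_iteratedFDeriv_fderiv]

end Pool.Agent.J4.H89.NC
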