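import Pool.Agent.R251.Nec.Grid

set_option autoImplicit false

/-! Separated sets. -/

open MeasureTheory Set Filter Topology ENNReal NNReal Metric

namespace Pool.Agent.J4.H89.NC

section general

variable {X : Type*} [NormedAddCommGroup X] [NormedSpace ℝ X] [FiniteDimensional ℝ X] [MeasurableSpace X]
  [BorelSpace X] (μ : Measure X) [μ.IsAddHaarMeasure] {n : ℕ}

include μ in
theorem pack {n : ℕ} (hn : Module.finrank ℝ X = n) (hn0 : 0 < n) {κ : Type*} (S : Finset κ) (p : κ → X)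
    {δ r : ℝ} (hδ : 0 < δ) (hr : 0 ≤ r) (x : X) (h1 : ∀ s ∈ S, ‖p s - x‖ ≤ r)
    (h2 : ∀ s ∈ S, ∀ t ∈ S, s ≠ t → δ ≤ ‖p s - p t‖) : (S.card : ℝ) ≤ (1 + 2 * r / δ) ^ n := by
  have hnt : Nontrivial X := by
    apply Module.nontrivial_of_finrank_pos (R := ℝ)
    rw [hn]
    exact hn0
  have hv0 : 0 < μ (ball (0 : X) 1) := measure_ball_pos _ _ one_pos
  have hvt : μ (ball (0 : X) 1) ≠ ∞ := measure_ball_lt_top.ne
  have hd : (S : Set κ).PairwiseDisjoint (fun s => ball (p s) (δ / 2)) := by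
    intro s hs t ht hst
    apply ball_disjoint_ball
    rw [dist_eq_norm]
    have := h2 s hs t ht hst
    linarith
  have hsub : (⋃ s ∈ S, ball (p s) (δ / 2)) ⊆ ball x (r + δ / 2) := by
    intro y hy
    simp only [mem_iUnion] at hy
    obtain ⟨s, hs, hy⟩ := hy
    rw [mem_ball, dist_eq_norm] at hy ⊢
    calc ‖y - x‖ ≤ ‖y - p s‖ + ‖p s - x‖ := by
          have : y - x = (y - p s) + (p s - x) := by abel
          rw [this]
          exact norm_add_le _ _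
      _ < δ / 2 + r := add_lt_add_of_lt_of_le hy (h1 s hs)
      _ = _ := by ring
  have hm : μ (⋃ s ∈ S, ball (p s) (δ / 2)) = ∑ s ∈ S, μ (ball (p s) (δ / 2)) :=
    measure_biUnion_finset hd (fun s _ => measurableSet_ball)
  have h3 : ∑ s ∈ S, μ (ball (p s) (δ / 2)) ≤ μ (ball x (r + δ / 2)) := by
    rw [← hm]
    exact measure_mono hsub
  have h4 : ∀ s, μ (ball (p s) (δ / 2)) = ENNReal.ofReal ((δ / 2) ^ n) * μ (ball (0 : X) 1) := by
    intro s
    rw [Measure.addHaar_ball_of_pos _ _ (by positivity), hn]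
  have h4' : μ (ball x (r + δ / 2)) = ENNReal.ofReal ((r + δ / 2) ^ n) * μ (ball (0 : X) 1) := by
    rw [Measure.addHaar_ball_of_pos _ _ (by positivity), hn]
  rw [Finset.sum_congr rfl (fun s _ => h4 s), Finset.sum_const, nsmul_eq_mul, h4', ← mul_assoc,
    ENNReal.mul_le_mul_iff_left hv0.ne' hvt, ← ENNReal.ofReal_natCast, ← ENNReal.ofReal_mul (by positivity),
    ENNReal.ofReal_le_ofReal_iff (by positivity)] at h3
  have h5 : (r + δ / 2) ^ n = (1 + 2 * r / δ) ^ n * (δ / 2) ^ n := by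
    rw [← mul_pow]
    congr 1
    field_simp
    ring
  rw [h5] at h3
  exact le_of_mul_le_mul_right h3 (by positivity)

include μ in
theorem cover {n : ℕ} (hn : Module.finrank ℝ X = n) (hn0 : 0 < n) {κ : Type*} (S : Finset κ) (p : κ → X)
    {δ r : ℝ} (hδ : 0 < δ) (hr : 0 < r) (x : X) (h1 : ∀ y, ‖y - x‖ < r → ∃ s ∈ S, ‖y - p s‖ < δ) :
    (r / δ) ^ n ≤ (S.card : ℝ) := by
  have hnt : Nontrivial X := by
    apply Module.nontrivial_of_finrank_pos (R := ℝ)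
    rw [hn]
    exact hn0
  have hv0 : 0 < μ (ball (0 : X) 1) := measure_ball_pos _ _ one_pos
  have hvt : μ (ball (0 : X) 1) ≠ ∞ := measure_ball_lt_top.ne
  have hsub : ball x r ⊆ ⋃ s ∈ S, ball (p s) δ := by
    intro y hy
    rw [mem_ball, dist_eq_norm] at hy
    obtain ⟨s, hs, h⟩ := h1 y hy
    simp only [mem_iUnion]
    exact ⟨s, hs, by rwa [mem_ball, dist_eq_norm]⟩
  have h3 : μ (ball x r) ≤ ∑ s ∈ S, μ (ball (p s) δ) :=
    (measure_mono hsub).trans (measure_biUnion_finset_le _ _)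
  have h4 : ∀ s, μ (ball (p s) δ) = ENNReal.ofReal (δ ^ n) * μ (ball (0 : X) 1) := by
    intro s
    rw [Measure.addHaar_ball_of_pos _ _ hδ, hn]
  have h4' : μ (ball x r) = ENNReal.ofReal (r ^ n) * μ (ball (0 : X) 1) := by
    rw [Measure.addHaar_ball_of_pos _ _ hr, hn]
  rw [Finset.sum_congr rfl (fun s _ => h4 s), Finset.sum_const, nsmul_eq_mul, h4', ← mul_assoc,
    ENNReal.mul_le_mul_iff_left hv0.ne' hvt, ← ENNReal.ofReal_natCast, ← ENNReal.ofReal_mul (by positivity),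
    ENNReal.ofReal_le_ofReal_iff (by positivity)] at h3
  rw [div_pow, div_le_iff₀ (by positivity)]
  exact h3

end general

/-- Maximal separated sets. -/
theorem exists_net {X : Type*} [PseudoMetricSpace X] (Y : Set X) (r : ℝ) (hr : 0 < r) (N : ℕ)
    (hN : ∀ s : Finset X, (∀ x ∈ s, x ∈ Y) → (∀ x ∈ s, ∀ y ∈ s, x ≠ y → r ≤ dist x y) →
      s.card ≤ N) :
    ∃ s : Finset X, (∀ x ∈ s, x ∈ Y) ∧ (∀ x ∈ s, ∀ y ∈ s, x ≠ y → r ≤ dist x y) ∧
      ∀ x ∈ Y, ∃ y ∈ s, dist x y < r := by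
  classical
  set P : ℕ → Prop := fun m => ∃ s : Finset X, (∀ x ∈ s, x ∈ Y) ∧
    (∀ x ∈ s, ∀ y ∈ s, x ≠ y → r ≤ dist x y) ∧ s.card = m with hP
  have h0 : P 0 := ⟨∅, by simp, by simp, rfl⟩
  have h1 := Nat.findGreatest_spec (P := P) (Nat.zero_le N) h0
  obtain ⟨s, hs1, hs2, hs3⟩ := h1
  refine ⟨s, hs1, hs2, ?_⟩
  intro x hx
  by_contra hcon
  push Not at hcon
  have hxs : x ∉ s := by
    intro hmem
    have := hcon x hmem
    rw [dist_self] at this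
    linarith
  have hP1 : P (Nat.findGreatest P N + 1) := by
    refine ⟨insert x s, ?_, ?_, ?_⟩
    · intro y hy
      rcases Finset.mem_insert.1 hy with rfl | hy
      · exact hx
      · exact hs1 y hy
    · intro y hy z hz hyz
      rcases Finset.mem_insert.1 hy with rfl | hy'
      · rcases Finset.mem_insert.1 hz with rfl | hz'
        · exact absurd rfl hyz
        · exact hcon z hz'
      · rcases Finset.mem_insert.1 hz with rfl | hz'
        · rw [dist_comm]; exact hcon y hy'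
        · exact hs2 y hy' z hz' hyz
    · rw [Finset.card_insert_of_notMem hxs, hs3]
  have hle : Nat.findGreatest P N + 1 ≤ N := by
    obtain ⟨s', h1, h2, h3⟩ := hP1
    rw [← h3]
    exact hN s' h1 h2
  exact Nat.findGreatest_is_greatest (Nat.lt_succ_self _) hle hP1

/-- Rounding of finitely many points. -/
theorem exists_round {X ι : Type*} [Fintype ι] [PseudoMetricSpace X] (a : ι → X) {r : ℝ} (hr : 0 < r) :
    ∃ s : ι → X, (∀ i, dist (a i) (s i) < r) ∧ ∀ i j, s i ≠ s j → r ≤ dist (s i) (s j) := by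
  classical
  obtain ⟨T, hT1, hT2, hT3⟩ := exists_net (Set.range a) r hr (Fintype.card ι) (by
    intro s hs _
    calc s.card ≤ (Finset.univ.image a).card := Finset.card_le_card (by
          intro x hx
          obtain ⟨i, hi⟩ := hs x hx
          exact Finset.mem_image.2 ⟨i, Finset.mem_univ _, hi⟩)
      _ ≤ Fintype.card ι := Finset.card_image_le)
  have h : ∀ i, ∃ y ∈ T, dist (a i) y < r := fun i => hT3 (a i) ⟨i, rfl⟩
  choose s hs1 hs2 using h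
  exact ⟨s, hs2, fun i j hij => hT2 _ (hs1 i) _ (hs1 j) hij⟩

open Pool.Agent.H810R3.Tub (Vec Space nor box dir norm_dir norm_space_sq Fb)

variable {d : ℕ}

/-- The net of caps. -/
theorem net_vec (hd : 1 ≤ d) {N : ℝ} (hN : 1 ≤ N) : ∃ W : Finset (Vec d), (∀ w ∈ W, ‖w‖ ≤ 1) ∧
    (∀ w ∈ W, ∀ v ∈ W, w ≠ v → 1 / N ≤ ‖w - v‖) ∧ (∀ v : Vec d, ‖v‖ ≤ 1 → ∃ w ∈ W, ‖v - w‖ < 1 / N) ∧
    N ^ d ≤ (W.card : ℝ) := by
  have hN0 : 0 < N := by linarith
  have hfr : Module.finrank ℝ (Vec d) = d := finrank_euclideanSpace_fin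
  obtain ⟨W, h1, h2, h3⟩ := exists_net (closedBall (0 : Vec d) 1) (1 / N) (by positivity)
    ⌊(1 + 2 * 1 / (1 / N)) ^ d⌋₊ (by
      intro s hs1 hs2
      apply Nat.le_floor
      refine pack (volume : Measure (Vec d)) hfr (by omega) s id (by positivity) zero_le_one 0 ?_ ?_
      · intro x hx
        have := hs1 x hx
        rwa [mem_closedBall, dist_eq_norm] at this
      · intro x hx y hy hxy
        have := hs2 x hx y hy hxy
        rwa [dist_eq_norm] at this)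
  have h3' : ∀ v : Vec d, ‖v‖ ≤ 1 → ∃ w ∈ W, ‖v - w‖ < 1 / N := by
    intro v hv
    obtain ⟨w, hw, h⟩ := h3 v (by rwa [mem_closedBall, dist_zero_right])
    exact ⟨w, hw, by rwa [dist_eq_norm] at h⟩
  refine ⟨W, ?_, ?_, h3', ?_⟩
  · intro w hw
    have := h1 w hw
    rwa [mem_closedBall, dist_zero_right] at this
  · intro w hw v hv hwv
    have := h2 w hw v hv hwv
    rwa [dist_eq_norm] at this
  · have h4 := cover (volume : Measure (Vec d)) hfr (by omega) W id (δ := 1 / N) (r := 1) (by positivity)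
      one_pos 0 (by
        intro y hy
        rw [sub_zero] at hy
        exact h3' y hy.le)
    rwa [one_div_one_div] at h4

/-- The number of points of the net near a point of the unit ball. -/
theorem net_near (hd : 1 ≤ d) {N ρ : ℝ} (hN : 1 ≤ N) (hρ : 0 < ρ) (hρ1 : ρ ≤ 1) (hρN : 16 ≤ ρ * N)
    {W : Finset (Vec d)}
    (hW : ∀ v : Vec d, ‖v‖ ≤ 1 → ∃ w ∈ W, ‖v - w‖ < 1 / N) {ω : Vec d} (hω : ‖ω‖ ≤ 1) :
    (ρ * N / 16) ^ d ≤ ((W.filter fun w => ‖w - ω‖ ≤ ρ / 4).card : ℝ) := by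
  have hN0 : 0 < N := by linarith
  have hfr : Module.finrank ℝ (Vec d) = d := finrank_euclideanSpace_fin
  have hNρ : 1 / N ≤ ρ / 16 := by
    rw [div_le_div_iff₀ hN0 (by norm_num)]
    linarith
  have h := cover (volume : Measure (Vec d)) hfr (by omega) (W.filter fun w => ‖w - ω‖ ≤ ρ / 4) id
    (δ := 1 / N) (r := ρ / 16) (by positivity) (by positivity) ((1 - ρ / 16) • ω) (by
      intro y hy
      have hz : ‖(1 - ρ / 16) • ω‖ ≤ 1 - ρ / 16 := by
        rw [norm_smul, Real.norm_of_nonneg (by linarith)]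
        calc (1 - ρ / 16) * ‖ω‖ ≤ (1 - ρ / 16) * 1 := by
              apply mul_le_mul_of_nonneg_left hω (by linarith)
          _ = _ := mul_one _
      have hy1 : ‖y‖ ≤ 1 := by
        have : y = (y - (1 - ρ / 16) • ω) + (1 - ρ / 16) • ω := by abel
        rw [this]
        refine (norm_add_le _ _).trans ?_
        linarith
      obtain ⟨w, hw, hyw⟩ := hW y hy1
      refine ⟨w, ?_, hyw⟩
      rw [Finset.mem_filter]
      refine ⟨hw, ?_⟩
      have h1 : ‖(1 - ρ / 16) • ω - ω‖ ≤ ρ / 16 := by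
        have : (1 - ρ / 16) • ω - ω = (-(ρ / 16)) • ω := by
          rw [sub_smul, one_smul, neg_smul]
          abel
        rw [this, norm_smul, norm_neg, Real.norm_of_nonneg (by positivity)]
        calc ρ / 16 * ‖ω‖ ≤ ρ / 16 * 1 := mul_le_mul_of_nonneg_left hω (by positivity)
          _ = _ := mul_one _
      have : w - ω = -(y - w) + (y - (1 - ρ / 16) • ω) + ((1 - ρ / 16) • ω - ω) := by abel
      rw [this]
      calc ‖-(y - w) + (y - (1 - ρ / 16) • ω) + ((1 - ρ / 16) • ω - ω)‖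
          ≤ ‖-(y - w)‖ + ‖y - (1 - ρ / 16) • ω‖ + ‖(1 - ρ / 16) • ω - ω‖ := norm_add₃_le
        _ ≤ ρ / 16 + ρ / 16 + ρ / 16 := by
            rw [norm_neg]
            linarith
        _ ≤ ρ / 4 := by linarith)
  have e : ρ / 16 / (1 / N) = ρ * N / 16 := by
    field_simp
  rwa [e] at h

/-- The normal depends on the point in a Lipschitz way. -/
theorem nor_lip (v w : Vec d) : ‖nor v - nor w‖ ≤ 4 * ‖v - w‖ := by
  set x : Space d := WithLp.toLp 2 (-(2 : ℝ) • v, (1:ℝ)) with hx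
  set y : Space d := WithLp.toLp 2 (-(2 : ℝ) • w, (1:ℝ)) with hy
  have hxn : ‖x‖ = √(1 + ‖-(2 : ℝ) • v‖ ^ 2) := by
    rw [WithLp.prod_norm_eq_of_L2]
    congr 1
    show ‖-(2 : ℝ) • v‖ ^ 2 + ‖(1:ℝ)‖ ^ 2 = 1 + ‖-(2 : ℝ) • v‖ ^ 2
    rw [norm_one]; ring
  have hyn : ‖y‖ = √(1 + ‖-(2 : ℝ) • w‖ ^ 2) := by
    rw [WithLp.prod_norm_eq_of_L2]
    congr 1
    show ‖-(2 : ℝ) • w‖ ^ 2 + ‖(1:ℝ)‖ ^ 2 = 1 + ‖-(2 : ℝ) • w‖ ^ 2
    rw [norm_one]; ring
  have ex : nor v = ‖x‖⁻¹ • x := by rw [hxn]; rfl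
  have ey : nor w = ‖y‖⁻¹ • y := by rw [hyn]; rfl
  have hx1 : 1 ≤ ‖x‖ := by
    rw [hxn]
    apply Real.one_le_sqrt.2
    nlinarith [sq_nonneg ‖-(2 : ℝ) • v‖]
  have hy1 : 1 ≤ ‖y‖ := by
    rw [hyn]
    apply Real.one_le_sqrt.2
    nlinarith [sq_nonneg ‖-(2 : ℝ) • w‖]
  have hxy : ‖x - y‖ = 2 * ‖v - w‖ := by
    have : x - y = WithLp.toLp 2 (-(2 : ℝ) • (v - w), (0:ℝ)) := by
      rw [hx, hy, ← WithLp.toLp_sub]
      congr 1
      refine Prod.ext ?_ ?_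
      · show -(2 : ℝ) • v - -(2 : ℝ) • w = -(2 : ℝ) • (v - w)
        rw [smul_sub]
      · show (1:ℝ) - 1 = 0
        ring
    rw [this, WithLp.prod_norm_eq_of_L2]
    show √(‖-(2 : ℝ) • (v - w)‖ ^ 2 + ‖(0:ℝ)‖ ^ 2) = _
    rw [norm_zero, norm_smul, norm_neg, Real.norm_of_nonneg (by norm_num : (0:ℝ) ≤ 2)]
    rw [show (2 * ‖v - w‖) ^ 2 + (0:ℝ) ^ 2 = (2 * ‖v - w‖) ^ 2 by ring]
    exact Real.sqrt_sq (by positivity)
  rw [ex, ey]
  have hx0 : ‖x‖ ≠ 0 := by linarith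
  have hy0 : ‖y‖ ≠ 0 := by linarith
  have e : ‖x‖⁻¹ • x - ‖y‖⁻¹ • y = ‖x‖⁻¹ • (x - y) + (‖x‖⁻¹ - ‖y‖⁻¹) • y := by
    rw [smul_sub, sub_smul]
    abel
  rw [e]
  refine (norm_add_le _ _).trans ?_
  rw [norm_smul, norm_smul, norm_inv, norm_norm]
  have h1 : ‖x‖⁻¹ * ‖x - y‖ ≤ ‖x - y‖ := by
    calc ‖x‖⁻¹ * ‖x - y‖ ≤ 1 * ‖x - y‖ := by
          apply mul_le_mul_of_nonneg_right (inv_le_one_of_one_le₀ hx1) (norm_nonneg _)
      _ = _ := one_mul _
  have h2 : ‖‖x‖⁻¹ - ‖y‖⁻¹‖ * ‖y‖ ≤ ‖x - y‖ := by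
    have e2 : ‖x‖⁻¹ - ‖y‖⁻¹ = (‖y‖ - ‖x‖) * (‖x‖⁻¹ * ‖y‖⁻¹) := by
      field_simp
    rw [e2, norm_mul, Real.norm_of_nonneg (by positivity : 0 ≤ ‖x‖⁻¹ * ‖y‖⁻¹), Real.norm_eq_abs]
    have h3 : |‖y‖ - ‖x‖| ≤ ‖x - y‖ := by
      rw [norm_sub_rev]
      exact abs_norm_sub_norm_le y x
    calc |‖y‖ - ‖x‖| * (‖x‖⁻¹ * ‖y‖⁻¹) * ‖y‖ = |‖y‖ - ‖x‖| * ‖x‖⁻¹ := by
          field_simp
      _ ≤ ‖x - y‖ * 1 := by
          apply mul_le_mul h3 (inv_le_one_of_one_le₀ hx1) (by positivity) (norm_nonneg _)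
      _ = _ := mul_one _
  linarith

end Pool.Agent.J4.H89.NC
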