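import Pool.Agent.J4.H89.NC.B

set_option autoImplicit false

/-! Localisation of a family of boxes. -/

open MeasureTheory Set Filter Topology ENNReal NNReal Metric

namespace Pool.Agent.J4.H89.NC

open Pool.Agent.H810R3.Tub (Vec Space nor box Fb Fb_measurable box_closed box_sub_ball finrank_space)

theorem sum_rpow_le {κ : Type*} (S : Finset κ) (x : κ → ℝ≥0∞) {q : ℝ} (hq : 1 ≤ q) :
    ∑ s ∈ S, x s ^ q ≤ (∑ s ∈ S, x s) ^ q := by
  classical
  induction S using Finset.induction_on with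
  | empty => simp
  | insert a S ha ih =>
    rw [Finset.sum_insert ha, Finset.sum_insert ha]
    calc x a ^ q + ∑ s ∈ S, x s ^ q ≤ x a ^ q + (∑ s ∈ S, x s) ^ q := by gcongr
      _ ≤ (x a + ∑ s ∈ S, x s) ^ q := ENNReal.add_rpow_le_rpow_add _ _ hq

variable {d : ℕ} {ι : Type} [Fintype ι]

theorem box_shift (R : ℝ) (e : Space d) (f : Fin d → Space d) (a κ y : Space d) :
    (box R e f a).indicator (fun _ => (1 : ℝ≥0∞)) (y + κ) =
      (box R e f (a - κ)).indicator (fun _ => (1 : ℝ≥0∞)) y := by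
  have h : y + κ ∈ box R e f a ↔ y ∈ box R e f (a - κ) := by
    have e1 : y + κ - a = y - (a - κ) := by abel
    unfold box
    rw [mem_ofPred_eq, mem_ofPred_eq, e1]
  by_cases hy : y + κ ∈ box R e f a
  · rw [indicator_of_mem hy, indicator_of_mem (h.1 hy)]
  · rw [indicator_of_notMem hy, indicator_of_notMem (fun h' => hy (h.2 h'))]

theorem localise {R : ℝ} (hR : 1 ≤ R) {ω : ι → Vec d} {f : ι → Fin d → Space d}
    (hf : ∀ i, Orthonormal ℝ (Fin.cons (nor (ω i)) (f i) : Fin (d + 1) → Space d)) (a : ι → Space d)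
    {q : ℝ} (hq : 1 ≤ q) : ∃ a' : ι → Space d, (∀ i, ‖a' i‖ ≤ R ^ 2) ∧
      ∫⁻ y, Fb R ω f a y ^ q ≤
        ENNReal.ofReal (((2 * (d : ℝ) + 5) ^ (d + 1)) ^ (q - 1)) * ∫⁻ y, Fb R ω f a' y ^ q := by
  classical
  have hR0 : 0 < R := by linarith
  obtain ⟨s, hs1, hs2⟩ := exists_round a (r := R ^ 2) (by positivity)
  set S : Finset (Space d) := Finset.univ.image s with hS
  obtain ⟨G, hG⟩ : ∃ G : Space d → Space d → ℝ≥0∞, ∀ κ y, G κ y =
      ∑ i ∈ Finset.univ.filter (fun i => s i = κ),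
        (box R (nor (ω i)) (f i) (a i)).indicator (fun _ => (1 : ℝ≥0∞)) y := ⟨_, fun _ _ => rfl⟩
  have hmaps : ∀ i ∈ (Finset.univ : Finset ι), s i ∈ S := fun i hi => Finset.mem_image_of_mem s hi
  have hGm : ∀ κ, Measurable (G κ) := by
    intro κ
    have : G κ = fun y => ∑ i ∈ Finset.univ.filter (fun i => s i = κ),
        (box R (nor (ω i)) (f i) (a i)).indicator (fun _ => (1 : ℝ≥0∞)) y := funext (hG κ)
    rw [this]
    apply Finset.measurable_fun_sum
    intro i _
    exact measurable_const.indicator (box_closed _ _ _ _).measurableSet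
  have hsum : ∀ y, Fb R ω f a y = ∑ κ ∈ S, G κ y := by
    intro y
    simp only [hG]
    exact (Finset.sum_fiberwise_of_maps_to hmaps
      (fun i => (box R (nor (ω i)) (f i) (a i)).indicator (fun _ => (1 : ℝ≥0∞)) y)).symm
  have hcount : ∀ y, (((S.filter fun κ => G κ y ≠ 0).card : ℕ) : ℝ) ≤ (2 * (d : ℝ) + 5) ^ (d + 1) := by
    intro y
    have h1 := pack (volume : Measure (Space d)) (finrank_space (d := d)) (by omega)
      (S.filter fun κ => G κ y ≠ 0) id (δ := R ^ 2) (r := (d + 2) * R ^ 2) (by positivity) (by positivity) y ?_ ?_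
    · refine h1.trans (le_of_eq ?_)
      congr 1
      field_simp
      ring
    · intro κ hκ
      rw [Finset.mem_filter] at hκ
      obtain ⟨i, hi, hne⟩ : ∃ i ∈ Finset.univ.filter (fun i => s i = κ),
          (box R (nor (ω i)) (f i) (a i)).indicator (fun _ => (1 : ℝ≥0∞)) y ≠ 0 := by
        by_contra hcon
        push Not at hcon
        apply hκ.2
        rw [hG]
        exact Finset.sum_eq_zero hcon
      have hmem : y ∈ box R (nor (ω i)) (f i) (a i) := by
        by_contra h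
        exact hne (indicator_of_notMem h _)
      have hsi : s i = κ := (Finset.mem_filter.1 hi).2
      have h2 : y - a i ∈ box R (nor (ω i)) (f i) 0 := by
        have := hmem
        unfold box at this ⊢
        rw [mem_ofPred_eq] at this ⊢
        rwa [sub_zero]
      have h3 := box_sub_ball hR (hf i) h2
      rw [mem_closedBall, dist_zero_right] at h3
      have h4 := hs1 i
      rw [dist_eq_norm] at h4
      show ‖κ - y‖ ≤ _
      have e : κ - y = -((y - a i) + (a i - s i)) := by rw [hsi]; abel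
      rw [e, norm_neg]
      refine (norm_add_le _ _).trans ?_
      nlinarith
    · intro κ hκ τ hτ hne
      rw [Finset.mem_filter] at hκ hτ
      obtain ⟨i, _, hi⟩ := Finset.mem_image.1 hκ.1
      obtain ⟨j, _, hj⟩ := Finset.mem_image.1 hτ.1
      have := hs2 i j (by rw [hi, hj]; exact hne)
      rw [dist_eq_norm, hi, hj] at this
      exact this
  refine ⟨fun i => a i - s i, fun i => ?_, ?_⟩
  · have := hs1 i
    rw [dist_eq_norm] at this
    exact this.le
  have hpt : ∀ y, Fb R ω f a y ^ q ≤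
      ENNReal.ofReal (((2 * (d : ℝ) + 5) ^ (d + 1)) ^ (q - 1)) * ∑ κ ∈ S, G κ y ^ q := by
    intro y
    rw [hsum, ← Finset.sum_filter_ne_zero]
    refine (ENNReal.rpow_sum_le_const_mul_sum_rpow _ _ hq).trans ?_
    apply mul_le_mul'
    · rw [← ENNReal.ofReal_rpow_of_nonneg (by positivity) (by linarith)]
      apply ENNReal.rpow_le_rpow _ (by linarith)
      rw [← ENNReal.ofReal_natCast]
      exact ENNReal.ofReal_le_ofReal (hcount y)
    · exact Finset.sum_le_sum_of_subset (Finset.filter_subset _ _)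
  have htr : ∀ κ, ∫⁻ y, G κ y ^ q = ∫⁻ y, G κ (y + κ) ^ q := by
    intro κ
    exact (lintegral_add_right_eq_self (fun y => G κ y ^ q) κ).symm
  have hG' : ∀ κ y, G κ (y + κ) = ∑ i ∈ Finset.univ.filter (fun i => s i = κ),
      (box R (nor (ω i)) (f i) (a i - s i)).indicator (fun _ => (1 : ℝ≥0∞)) y := by
    intro κ y
    rw [hG]
    refine Finset.sum_congr rfl fun i hi => ?_
    rw [box_shift, (Finset.mem_filter.1 hi).2]
  have hpt2 : ∀ y, ∑ κ ∈ S, G κ (y + κ) ^ q ≤ Fb R ω f (fun i => a i - s i) y ^ q := by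
    intro y
    refine (sum_rpow_le S _ hq).trans (le_of_eq ?_)
    congr 1
    simp only [hG']
    exact Finset.sum_fiberwise_of_maps_to hmaps
      (fun i => (box R (nor (ω i)) (f i) (a i - s i)).indicator (fun _ => (1 : ℝ≥0∞)) y)
  calc ∫⁻ y, Fb R ω f a y ^ q
      ≤ ∫⁻ y, ENNReal.ofReal (((2 * (d : ℝ) + 5) ^ (d + 1)) ^ (q - 1)) * ∑ κ ∈ S, G κ y ^ q :=
        lintegral_mono hpt
    _ = ENNReal.ofReal (((2 * (d : ℝ) + 5) ^ (d + 1)) ^ (q - 1)) * ∑ κ ∈ S, ∫⁻ y, G κ y ^ q := by
        rw [lintegral_const_mul _ (Finset.measurable_fun_sum _ fun κ _ => (hGm κ).pow_const _),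
          lintegral_finsetSum _ fun κ _ => (hGm κ).pow_const _]
    _ = ENNReal.ofReal (((2 * (d : ℝ) + 5) ^ (d + 1)) ^ (q - 1)) * ∫⁻ y, ∑ κ ∈ S, G κ (y + κ) ^ q := by
        have hm' : ∀ κ ∈ S, Measurable (fun y => G κ (y + κ) ^ q) := fun κ _ =>
          ((hGm κ).comp (measurable_add_const κ)).pow_const q
        rw [lintegral_finsetSum S hm']
        congr 1
        exact Finset.sum_congr rfl fun κ _ => htr κ
    _ ≤ _ := by
        gcongr with y
        exact hpt2 y

end Pool.Agent.J4.H89.NC
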