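import Pool.Agent.J4.H89.NC.B

set_option autoImplicit false

/-! A box of the small scale, dilated, lies in the boxes of the large scale with close directions. -/

open MeasureTheory Set Filter Topology Metric

namespace Pool.Agent.J4.H89.NC

open Pool.Agent.H810R3.Tub (Vec Space nor box Fb box_perp norm_e norm_space_sq)

variable {d : ℕ}

/-- The dilation factor. -/
noncomputable def cd (d : ℕ) : ℝ := 1 / (8 * ((d : ℝ) + 1))

theorem cd_pos (d : ℕ) : 0 < cd d := by unfold cd; positivity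

theorem cd_le (d : ℕ) : cd d ≤ 1 := by
  unfold cd
  have hd0 : (0 : ℝ) ≤ d := Nat.cast_nonneg d
  rw [div_le_one (by positivity)]
  linarith

/-- The point where the axis meets the hyperplane at height `0`. -/
noncomputable def foot (ω : Vec d) (a : Space d) : Vec d := a.fst + (2 * a.snd) • ω

theorem fst_le (a : Space d) : ‖a.fst‖ ≤ ‖a‖ := by
  have h := norm_space_sq a
  nlinarith [norm_nonneg a, norm_nonneg a.fst, sq_nonneg a.snd, sq_nonneg (‖a‖ - ‖a.fst‖)]

theorem snd_le (a : Space d) : |a.snd| ≤ ‖a‖ := by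
  have h := norm_space_sq a
  apply abs_le_of_sq_le_sq _ (norm_nonneg a)
  nlinarith [sq_nonneg ‖a.fst‖]

theorem foot_le {R : ℝ} {ω : Vec d} (hω : ‖ω‖ ≤ 1) {a : Space d} (ha : ‖a‖ ≤ R ^ 2) :
    ‖foot ω a‖ ≤ 3 * R ^ 2 := by
  unfold foot
  refine (norm_add_le _ _).trans ?_
  rw [norm_smul, Real.norm_eq_abs, abs_mul, abs_two]
  have h1 := fst_le a
  have h2 := snd_le a
  have h3 : 2 * |a.snd| * ‖ω‖ ≤ 2 * R ^ 2 * 1 := by
    apply mul_le_mul _ hω (norm_nonneg _) (by positivity)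
    linarith
  linarith

theorem foot_eq (ω : Vec d) (a : Space d) :
    a - WithLp.toLp 2 (foot ω a, (0:ℝ)) = (a.snd * √(1 + ‖-(2 : ℝ) • ω‖ ^ 2)) • nor ω := by
  have hr : √(1 + ‖-(2 : ℝ) • ω‖ ^ 2) ≠ 0 := by positivity
  have e1 : nor ω = (√(1 + ‖-(2 : ℝ) • ω‖ ^ 2))⁻¹ • (WithLp.toLp 2 (-(2 : ℝ) • ω, (1:ℝ)) : Space d) := rfl
  rw [e1, smul_smul, mul_assoc, mul_inv_cancel₀ hr, mul_one]
  have e2 : a = (WithLp.toLp 2 (a.fst, a.snd) : Space d) := rfl
  conv_lhs => rw [e2]
  rw [← WithLp.toLp_sub, ← WithLp.toLp_smul]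
  congr 1
  refine Prod.ext ?_ ?_
  · show a.fst - foot ω a = a.snd • (-(2 : ℝ) • ω)
    unfold foot
    rw [smul_smul]
    have : a.snd * -2 = -(2 * a.snd) := by ring
    rw [this, neg_smul]
    abel
  · show a.snd - 0 = a.snd * 1
    ring

theorem incl {R N : ℝ} (hR : 1 ≤ R) (hRN : R ≤ N) {ω w : Vec d} (hω : ‖ω‖ ≤ 1)
    (hw : ‖w - ω‖ ≤ 1 / (16 * R)) {f g : Fin d → Space d}
    (hf : Orthonormal ℝ (Fin.cons (nor ω) f : Fin (d + 1) → Space d))
    (hg : Orthonormal ℝ (Fin.cons (nor w) g : Fin (d + 1) → Space d)) {a x : Space d}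
    (ha : ‖a‖ ≤ R ^ 2) (hx : x ∈ box R (nor ω) f a) :
    (cd d * N / R) • x ∈ box N (nor w) g (WithLp.toLp 2 ((cd d * N / R) • foot ω a, (0:ℝ))) := by
  have hR0 : 0 < R := by linarith
  have hN0 : 0 < N := by linarith
  have hd0 : (0 : ℝ) ≤ d := Nat.cast_nonneg d
  have hc := cd_pos d
  set lam : ℝ := cd d * N / R with hlam
  have hlam0 : 0 < lam := by positivity
  set r : ℝ := √(1 + ‖-(2 : ℝ) • ω‖ ^ 2) with hr
  have hr0 : 0 ≤ r := Real.sqrt_nonneg _
  have hr3 : r ≤ 3 := by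
    rw [hr]
    apply Real.sqrt_le_iff.2
    refine ⟨by norm_num, ?_⟩
    rw [norm_smul, norm_neg, Real.norm_of_nonneg (by norm_num : (0:ℝ) ≤ 2)]
    nlinarith [norm_nonneg ω]
  set e := nor ω with he
  have hen : ‖e‖ = 1 := norm_e hf
  have hwn : ‖nor w‖ = 1 := norm_e hg
  set τ : ℝ := inner ℝ e (x - a) with hτ
  set u : Space d := (x - a) - τ • e with hu
  have hun : ‖u‖ ≤ d * R / 2 := box_perp hR hf hx
  have hτn : |τ| ≤ R ^ 2 / 2 := hx.1
  set T : ℝ := τ + a.snd * r with hT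
  have hTn : |T| ≤ 4 * R ^ 2 := by
    have h1 := snd_le a
    have h2 : |a.snd * r| ≤ R ^ 2 * 3 := by
      rw [abs_mul, abs_of_nonneg hr0]
      exact mul_le_mul (h1.trans ha) hr3 hr0 (by positivity)
    have h3 := abs_add_le τ (a.snd * r)
    nlinarith [sq_nonneg R]
  have hz : x - WithLp.toLp 2 (foot ω a, (0:ℝ)) = T • e + u := by
    have h1 := foot_eq ω a
    have h2 : x - WithLp.toLp 2 (foot ω a, (0:ℝ)) = (x - a) + (a - WithLp.toLp 2 (foot ω a, (0:ℝ))) := by
      abel
    rw [h2, h1, hT, hu, add_smul, ← hr, ← he]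
    abel
  have hz' : lam • x - WithLp.toLp 2 (lam • foot ω a, (0:ℝ)) = lam • (T • e + u) := by
    rw [← hz, smul_sub, ← WithLp.toLp_smul]
    congr 2
    refine Prod.ext rfl ?_
    show (0:ℝ) = lam • (0:ℝ)
    rw [smul_zero]
  have hc1 : cd d * (4 + d) ≤ 1 / 2 := by
    unfold cd
    rw [div_mul_eq_mul_div, div_le_div_iff₀ (by positivity) (by norm_num)]
    linarith
  have hc2 : cd d * (1 + d / 2) ≤ 1 / 2 := by
    unfold cd
    rw [div_mul_eq_mul_div, div_le_div_iff₀ (by positivity) (by norm_num)]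
    linarith
  constructor
  · rw [hz', inner_smul_right, abs_mul, abs_of_pos hlam0]
    have h1 : |inner ℝ (nor w) (T • e + u)| ≤ (4 + d) * R ^ 2 := by
      refine (abs_real_inner_le_norm _ _).trans ?_
      rw [hwn, one_mul]
      refine (norm_add_le _ _).trans ?_
      rw [norm_smul, hen, mul_one, Real.norm_eq_abs]
      have h2 : (d : ℝ) * R / 2 ≤ d * R ^ 2 := by
        nlinarith [mul_nonneg hd0 (sub_nonneg.2 hR), mul_nonneg (mul_nonneg hd0 (sub_nonneg.2 hR)) hR0.le]
      linarith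
    calc lam * |inner ℝ (nor w) (T • e + u)| ≤ lam * ((4 + d) * R ^ 2) :=
          mul_le_mul_of_nonneg_left h1 hlam0.le
      _ = (cd d * (4 + d)) * (R * N) := by
          rw [hlam]
          field_simp
      _ ≤ (1 / 2) * (N * N) := by
          apply mul_le_mul hc1 _ (by positivity) (by norm_num)
          exact mul_le_mul_of_nonneg_right hRN hN0.le
      _ = N ^ 2 / 2 := by ring
  · intro j
    have hgj : ‖g j‖ = 1 := by
      have := hg.1 j.succ
      simpa using this
    have hgw : inner ℝ (g j) (nor w) = (0:ℝ) := by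
      have := hg.2 (Fin.succ_ne_zero j)
      simpa using this
    rw [hz', inner_smul_right, abs_mul, abs_of_pos hlam0, inner_add_right, inner_smul_right]
    have h1 : |inner ℝ (g j) e| ≤ 1 / (4 * R) := by
      have h2 : inner ℝ (g j) e = inner ℝ (g j) (e - nor w) := by
        rw [inner_sub_right, hgw, sub_zero]
      rw [h2]
      refine (abs_real_inner_le_norm _ _).trans ?_
      rw [hgj, one_mul]
      refine (nor_lip ω w).trans ?_
      rw [norm_sub_rev]
      calc 4 * ‖w - ω‖ ≤ 4 * (1 / (16 * R)) := by linarith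
        _ = 1 / (4 * R) := by field_simp; norm_num
    have h3 : |inner ℝ (g j) u| ≤ d * R / 2 := by
      refine (abs_real_inner_le_norm _ _).trans ?_
      rw [hgj, one_mul]
      exact hun
    have h4 : |T * inner ℝ (g j) e| ≤ R := by
      rw [abs_mul]
      calc |T| * |inner ℝ (g j) e| ≤ (4 * R ^ 2) * (1 / (4 * R)) :=
            mul_le_mul hTn h1 (abs_nonneg _) (by positivity)
        _ = R := by field_simp
    have h5 : |T * inner ℝ (g j) e + inner ℝ (g j) u| ≤ R + d * R / 2 :=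
      (abs_add_le _ _).trans (add_le_add h4 h3)
    calc lam * |T * inner ℝ (g j) e + inner ℝ (g j) u| ≤ lam * (R + d * R / 2) :=
          mul_le_mul_of_nonneg_left h5 hlam0.le
      _ = (cd d * (1 + d / 2)) * N := by
          rw [hlam]
          field_simp
      _ ≤ (1 / 2) * N := mul_le_mul_of_nonneg_right hc2 hN0.le
      _ = N / 2 := by ring

end Pool.Agent.J4.H89.NC
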