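import Pool.Agent.J4.H89.NC.A
import Pool.Agent.J4.H89.NC.D

set_option autoImplicit false

/-! The family of the large scale. -/

open MeasureTheory Set Filter Topology ENNReal NNReal Metric


namespace Pool.Agent.J4.H89.NC

open Pool.Agent.H810R3.Tub (Vec Space nor box Fb norm_dir)
open Pool.Agent.R251.Nec (exists_frame)

variable {d : ℕ}

/-- The smallness of the potential and of the translates. -/
def NearC {ι : Type} [Fintype ι] (m : ℕ) (η N : ℝ) (ω : ι → Vec d) (a : ι → Space d) : Prop :=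
  ∃ φ : Vec d → ℝ, ContDiff ℝ (⊤ : ℕ∞) φ ∧ (∀ j ≤ m + 1, ∀ v, ‖iteratedFDeriv ℝ j φ v‖ ≤ η) ∧
    (∀ i, a i = WithLp.toLp 2 (N ^ 2 • gradient φ (ω i), (0:ℝ))) ∧
    (∀ i, ‖a i‖ ≤ η * N ^ (1 + 1 / ((m : ℝ) + 1))) ∧
    (Nat.card {i // a i ≠ 0} : ℝ) ≤ η * N ^ d

/-- The parameters. -/
structure Par (d m : ℕ) (η σ θ G K R : ℝ) : Prop where
  hd : 1 ≤ d
  hη : 0 < η
  hσ : 0 < σ
  hσ1 : σ ≤ 1
  hθ : 0 < θ
  hθ1 : θ ≤ 1 / 4
  hθη : 9 * θ ≤ η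
  hθη1 : 9 * θ ≤ 1
  hG : 1 ≤ G
  hGb : ∀ j ≤ m + 1, ∀ u, ‖iteratedFDeriv ℝ j (gm d) u‖ ≤ G
  hK1 : 1 ≤ K
  hK2 : 16 ≤ θ * σ * K
  hK3 : 3 * cd d * G * (θ * σ)⁻¹ ^ m ≤ η * K
  hK4 : (3 * cd d * G / η) ^ (m + 1) ≤ K
  hR : 1 ≤ R

theorem exists_par (hd : 1 ≤ d) (m : ℕ) {η σ : ℝ} (hη : 0 < η) (hσ : 0 < σ) (hσ1 : σ ≤ 1) :
    ∃ θ G K : ℝ, ∀ R : ℝ, 1 ≤ R → Par d m η σ θ G K R := by
  obtain ⟨G, hG, hGb⟩ := gm_bound d (m + 1)
  have hc := cd_pos d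
  set θ : ℝ := min (1 / 9 * (1 / 4)) (η / 9) with hθ
  have hθ0 : 0 < θ := lt_min (by norm_num) (by positivity)
  have h1 : θ ≤ 1 / 9 * (1 / 4) := min_le_left _ _
  have h2 : θ ≤ η / 9 := min_le_right _ _
  set A : ℝ := 16 / (θ * σ) with hA
  set B : ℝ := 3 * cd d * G * (θ * σ)⁻¹ ^ m / η with hB
  set C : ℝ := (3 * cd d * G / η) ^ (m + 1) with hC
  have hA0 : 0 ≤ A := by positivity
  have hB0 : 0 ≤ B := by positivity
  have hC0 : 0 ≤ C := by positivity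
  refine ⟨θ, G, 1 + A + B + C, fun R hR => ⟨hd, hη, hσ, hσ1, hθ0, by linarith, by linarith, by linarith, hG,
    hGb, by linarith, ?_, ?_, by linarith, hR⟩⟩
  · have h3 : θ * σ * A = 16 := by
      rw [hA]
      field_simp
    have h4 : θ * σ * A ≤ θ * σ * (1 + A + B + C) := by
      apply mul_le_mul_of_nonneg_left (by linarith) (by positivity)
    linarith
  · have h3 : η * B = 3 * cd d * G * (θ * σ)⁻¹ ^ m := by
      rw [hB]
      field_simp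
    have h4 : η * B ≤ η * (1 + A + B + C) := by
      apply mul_le_mul_of_nonneg_left (by linarith) hη.le
    linarith

section

variable {m : ℕ} {η σ θ G K R : ℝ}

theorem Par.facts (P : Par d m η σ θ G K R) : 0 < R ∧ 0 < K ∧ 0 < K * R ^ (m + 1) ∧ R ≤ K * R ^ (m + 1) ∧
    1 ≤ K * R ^ (m + 1) ∧ 0 < θ * σ / R ∧ θ * σ / R ≤ 1 ∧ 16 ≤ θ * σ / R * (K * R ^ (m + 1)) := by
  have hR := P.hR
  have hR0 : 0 < R := by linarith
  have hK := P.hK1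
  have hK0 : 0 < K := by linarith
  have hσ := P.hσ
  have hσ1 := P.hσ1
  have hθ := P.hθ
  have hθ1 := P.hθ1
  have h1 : R ≤ R ^ (m + 1) := le_self_pow₀ hR (by omega)
  have h2 : R ^ (m + 1) ≤ K * R ^ (m + 1) := le_mul_of_one_le_left (by positivity) hK
  refine ⟨hR0, hK0, by positivity, h1.trans h2, by linarith, by positivity, ?_, ?_⟩
  · rw [div_le_one hR0]
    nlinarith
  · have h3 : θ * σ / R * (K * R ^ (m + 1)) = (θ * σ * K) * R ^ m := by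
      rw [pow_succ]
      field_simp
    rw [h3]
    have h4 : 1 ≤ R ^ m := one_le_pow₀ hR
    have := P.hK2
    nlinarith

variable {ι : Type} [Fintype ι]

/-- The vectors of the potential. -/
noncomputable def vb (m : ℕ) (K R : ℝ) (ω : ι → Vec d) (a : ι → Space d) (i : ι) : Vec d :=
  ((K * R ^ (m + 1)) ^ 2)⁻¹ • ((cd d * (K * R ^ (m + 1)) / R) • foot (ω i) (a i))

theorem vb_norm (P : Par d m η σ θ G K R) {ω : ι → Vec d} (hω : ∀ i, ‖ω i‖ ≤ 1) {a : ι → Space d}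
    (ha : ∀ i, ‖a i‖ ≤ R ^ 2) (i : ι) : ‖vb m K R ω a i‖ ≤ 3 * cd d * R / (K * R ^ (m + 1)) := by
  obtain ⟨hR0, hK0, hN0, -, -, -, -, -⟩ := P.facts
  have hc := cd_pos d
  unfold vb
  set N := K * R ^ (m + 1) with hN
  rw [norm_smul, norm_smul, Real.norm_of_nonneg (by positivity), Real.norm_of_nonneg (by positivity)]
  have h1 := foot_le (hω i) (ha i)
  calc (N ^ 2)⁻¹ * (cd d * N / R * ‖foot (ω i) (a i)‖) ≤ (N ^ 2)⁻¹ * (cd d * N / R * (3 * R ^ 2)) := by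
        gcongr
    _ = _ := by
        field_simp

theorem sep_two (P : Par d m η σ θ G K R) {ω : ι → Vec d} (hsep : ∀ i j, i ≠ j → σ / R ≤ ‖ω i - ω j‖) :
    ∀ i j, i ≠ j → 2 * (θ * σ / R) < ‖ω i - ω j‖ := by
  intro i j hij
  obtain ⟨hR0, -, -, -, -, -, -, -⟩ := P.facts
  refine lt_of_lt_of_le ?_ (hsep i j hij)
  have h1 := P.hσ
  have h2 := P.hθ1
  rw [← mul_div_assoc, div_lt_div_iff_of_pos_right hR0]
  nlinarith

/-- The smallness of the potential. -/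
theorem pot_small (P : Par d m η σ θ G K R) {ω : ι → Vec d} (hω : ∀ i, ‖ω i‖ ≤ 1) {a : ι → Space d}
    (ha : ∀ i, ‖a i‖ ≤ R ^ 2) (hsep : ∀ i j, i ≠ j → σ / R ≤ ‖ω i - ω j‖) {j : ℕ} (hj : j ≤ m + 1)
    (v : Vec d) : ‖iteratedFDeriv ℝ j (pot (θ * σ / R) (vb m K R ω a) ω) v‖ ≤ η := by
  obtain ⟨hR0, hK0, hN0, -, -, hρ0, hρ1, -⟩ := P.facts
  have hc := cd_pos d
  have hσ := P.hσ
  have hθ := P.hθ
  have hG := P.hG
  refine (pot_bound P.hGb hρ0 _ ω (vb_norm P hω ha) (by positivity) (sep_two P hsep) hj v).trans ?_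
  set ρ := θ * σ / R with hρ
  have h1 : ρ⁻¹ ^ j ≤ ρ⁻¹ ^ (m + 1) := pow_le_pow_right₀ (one_le_inv_iff₀.2 ⟨hρ0, hρ1⟩) hj
  have h2 : ρ * ρ⁻¹ ^ (m + 1) = (θ * σ)⁻¹ ^ m * R ^ m := by
    rw [pow_succ, hρ, inv_div]
    rw [div_pow, inv_pow]
    field_simp
  calc ρ * (3 * cd d * R / (K * R ^ (m + 1))) * G * ρ⁻¹ ^ j
      ≤ ρ * (3 * cd d * R / (K * R ^ (m + 1))) * G * ρ⁻¹ ^ (m + 1) := by gcongr
    _ = (ρ * ρ⁻¹ ^ (m + 1)) * (3 * cd d * R / (K * R ^ (m + 1))) * G := by ring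
    _ = (3 * cd d * G * (θ * σ)⁻¹ ^ m) / K := by
        rw [h2, pow_succ R m]
        field_simp
    _ ≤ η := by
        rw [div_le_iff₀ hK0]
        exact P.hK3

theorem grad_small (P : Par d m η σ θ G K R) {ω : ι → Vec d} (hω : ∀ i, ‖ω i‖ ≤ 1) {a : ι → Space d}
    (ha : ∀ i, ‖a i‖ ≤ R ^ 2) (hsep : ∀ i j, i ≠ j → σ / R ≤ ‖ω i - ω j‖)
    (v : Vec d) : (K * R ^ (m + 1)) ^ 2 * ‖gradient (pot (θ * σ / R) (vb m K R ω a) ω) v‖ ≤
      η * (K * R ^ (m + 1)) ^ (1 + 1 / ((m : ℝ) + 1)) := by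
  obtain ⟨hR0, hK0, hN0, -, -, hρ0, hρ1, -⟩ := P.facts
  have hc := cd_pos d
  have hσ := P.hσ
  have hθ := P.hθ
  have hG := P.hG
  have hη := P.hη
  rw [norm_gradient]
  have h1 := pot_bound P.hGb hρ0 _ ω (vb_norm P hω ha) (by positivity) (sep_two P hsep)
    (j := 1) (by omega) v
  set N := K * R ^ (m + 1) with hN
  set ρ := θ * σ / R with hρ
  have h2 : ρ * (3 * cd d * R / N) * G * ρ⁻¹ ^ 1 = 3 * cd d * G * R / N := by
    rw [pow_one]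
    field_simp
  rw [h2] at h1
  have hm0 : (0:ℝ) < (m : ℝ) + 1 := by positivity
  have h3 : 3 * cd d * G * R / η ≤ N ^ (1 / ((m : ℝ) + 1)) := by
    have h4 : (3 * cd d * G * R / η) ^ (m + 1) ≤ N := by
      have e : (3 * cd d * G * R / η) ^ (m + 1) = (3 * cd d * G / η) ^ (m + 1) * R ^ (m + 1) := by
        rw [← mul_pow]
        congr 1
        ring
      rw [e]
      exact mul_le_mul_of_nonneg_right P.hK4 (by positivity)
    have h5 : 3 * cd d * G * R / η = ((3 * cd d * G * R / η) ^ (m + 1)) ^ (1 / ((m : ℝ) + 1)) := by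
      have := Real.pow_rpow_inv_natCast (x := 3 * cd d * G * R / η) (by positivity) (Nat.succ_ne_zero m)
      rw [← this]
      congr 1
      · rw [this]
      · push_cast
        rw [one_div]
    rw [h5]
    exact Real.rpow_le_rpow (by positivity) h4 (by positivity)
  calc N ^ 2 * ‖iteratedFDeriv ℝ 1 (pot ρ (vb m K R ω a) ω) v‖ ≤ N ^ 2 * (3 * cd d * G * R / N) := by
        gcongr
    _ = η * (N * (3 * cd d * G * R / η)) := by
        field_simp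
    _ ≤ η * (N * N ^ (1 / ((m : ℝ) + 1))) := by gcongr
    _ = η * N ^ (1 + 1 / ((m : ℝ) + 1)) := by
        rw [Real.rpow_add hN0, Real.rpow_one]

end

end Pool.Agent.J4.H89.NC
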