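import Pool.Agent.J4.H89.NC.E

set_option autoImplicit false
set_option linter.unusedVariables false

/-! The family of the large scale: the construction. -/

open MeasureTheory Set Filter Topology ENNReal NNReal Metric

namespace Pool.Agent.J4.H89.NC

open Pool.Agent.H810R3.Tub (Vec Space nor box Fb norm_dir)
open Pool.Agent.R251.Nec (exists_frame)

variable {d : ℕ} {m : ℕ} {η σ θ G K R : ℝ} {ι : Type} [Fintype ι]

/-- The number of the caps. -/
theorem card_caps (hd : 1 ≤ d) {R σ : ℝ} (hR : 1 ≤ R) (hσ : 0 < σ) (hσ1 : σ ≤ 1) {ω : ι → Vec d}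
    (hω : ∀ i, ‖ω i‖ ≤ 1) (hsep : ∀ i j, i ≠ j → σ / R ≤ ‖ω i - ω j‖) :
    (Fintype.card ι : ℝ) ≤ (3 * R / σ) ^ d := by
  have hR0 : 0 < R := by linarith
  have hfr : Module.finrank ℝ (Vec d) = d := finrank_euclideanSpace_fin
  have h := pack (volume : Measure (Vec d)) hfr (by omega) (Finset.univ : Finset ι) ω (δ := σ / R) (r := 1)
    (by positivity) zero_le_one 0 (fun i _ => by rw [sub_zero]; exact hω i) (fun i _ j _ hij => hsep i j hij)
  rw [Finset.card_univ] at h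
  refine h.trans (pow_le_pow_left₀ (by positivity) ?_ _)
  have e : 2 * 1 / (σ / R) = 2 * R / σ := by field_simp
  rw [e]
  have h1 : 1 ≤ R / σ := by
    rw [one_le_div hσ]
    linarith
  have e2 : 2 * R / σ = 2 * (R / σ) := by ring
  have e3 : 3 * R / σ = 3 * (R / σ) := by ring
  rw [e2, e3]
  linarith

theorem grad_nonzero (P : Par d m η σ θ G K R) (b ω : ι → Vec d) {v : Vec d}
    (hv : gradient (pot (θ * σ / R) b ω) v ≠ 0) : ∃ i, ‖v - ω i‖ ≤ θ * σ / R := by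
  obtain ⟨hR0, hK0, hN0, -, -, hρ0, hρ1, -⟩ := P.facts
  by_contra hcon
  push Not at hcon
  exact hv (pot_grad_out hρ0 b ω hcon)

/-- The number of the nonzero translates. -/
theorem count_nonzero (P : Par d m η σ θ G K R) {ω : ι → Vec d} (hω : ∀ i, ‖ω i‖ ≤ 1)
    (hsep : ∀ i j, i ≠ j → σ / R ≤ ‖ω i - ω j‖) (W : Finset (Vec d))
    (hW : ∀ w ∈ W, ∀ v ∈ W, w ≠ v → 1 / (K * R ^ (m + 1)) ≤ ‖w - v‖) (b : ι → Vec d) (A : W → Space d)
    (hA : ∀ w : W, gradient (pot (θ * σ / R) b ω) w = 0 → A w = 0) :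
    (Nat.card {w : W // A w ≠ 0} : ℝ) ≤ η * (K * R ^ (m + 1)) ^ d := by
  classical
  obtain ⟨hR0, hK0, hN0, -, hN1, hρ0, hρ1, hρN⟩ := P.facts
  have hσ := P.hσ
  have hθ := P.hθ
  have hd := P.hd
  set N := K * R ^ (m + 1) with hN
  set ρ := θ * σ / R with hρ
  have hfr : Module.finrank ℝ (Vec d) = d := finrank_euclideanSpace_fin
  set J : ι → Finset (Vec d) := fun i => W.filter fun w => ‖w - ω i‖ ≤ ρ with hJ
  have h1 : Nat.card {w : W // A w ≠ 0} ≤ (Finset.univ.biUnion J).card := by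
    have hinj : ∀ w : {w : W // A w ≠ 0}, ((w : W) : Vec d) ∈ Finset.univ.biUnion J := by
      rintro ⟨⟨w, hw⟩, hAw⟩
      have h2 : gradient (pot ρ b ω) w ≠ 0 := fun h => hAw (hA ⟨w, hw⟩ h)
      obtain ⟨i, hi⟩ := grad_nonzero P b ω h2
      rw [Finset.mem_biUnion]
      exact ⟨i, Finset.mem_univ _, Finset.mem_filter.2 ⟨hw, hi⟩⟩
    rw [Nat.card_eq_fintype_card, ← Fintype.card_coe (Finset.univ.biUnion J)]
    apply Fintype.card_le_of_injective (fun w : {w : W // A w ≠ 0} =>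
      (⟨((w : W) : Vec d), hinj w⟩ : {x // x ∈ Finset.univ.biUnion J}))
    intro w w' hww'
    have : ((w : W) : Vec d) = ((w' : W) : Vec d) := congrArg (fun z => z.1) hww'
    exact Subtype.ext (Subtype.ext this)
  have h2 : (Finset.univ.biUnion J).card ≤ ∑ i, (J i).card := Finset.card_biUnion_le
  have h3 : ∀ i, ((J i).card : ℝ) ≤ (3 * (ρ * N)) ^ d := by
    intro i
    have h := pack (volume : Measure (Vec d)) hfr (by omega) (J i) id (δ := 1 / N) (r := ρ)
      (by positivity) hρ0.le (ω i) (fun w hw => (Finset.mem_filter.1 hw).2)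
      (fun w hw v hv hwv => hW w (Finset.mem_filter.1 hw).1 v (Finset.mem_filter.1 hv).1 hwv)
    refine h.trans (pow_le_pow_left₀ (by positivity) ?_ _)
    have e : 2 * ρ / (1 / N) = 2 * (ρ * N) := by field_simp
    rw [e]
    linarith
  have h4 := card_caps hd P.hR hσ P.hσ1 hω hsep
  calc (Nat.card {w : W // A w ≠ 0} : ℝ) ≤ ((∑ i, (J i).card : ℕ) : ℝ) := by exact_mod_cast h1.trans h2
    _ = ∑ i, ((J i).card : ℝ) := by push_cast; rfl
    _ ≤ ∑ _i : ι, (3 * (ρ * N)) ^ d := Finset.sum_le_sum fun i _ => h3 i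
    _ = (Fintype.card ι : ℝ) * (3 * (ρ * N)) ^ d := by
        rw [Finset.sum_const, Finset.card_univ, nsmul_eq_mul]
    _ ≤ (3 * R / σ) ^ d * (3 * (ρ * N)) ^ d := by gcongr
    _ = (9 * θ) ^ d * N ^ d := by
        rw [← mul_pow, ← mul_pow]
        congr 1
        rw [hρ]
        field_simp
        ring
    _ ≤ η * N ^ d := by
        apply mul_le_mul_of_nonneg_right _ (by positivity)
        calc (9 * θ) ^ d ≤ (9 * θ) ^ 1 := pow_le_pow_of_le_one (by positivity) P.hθη1 hd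
          _ = 9 * θ := pow_one _
          _ ≤ η := P.hθη

/-- The inequality between the sums of the indicators. -/
theorem sum_ineq (P : Par d m η σ θ G K R) {ω : ι → Vec d} (hω : ∀ i, ‖ω i‖ ≤ 1)
    (hsep : ∀ i j, i ≠ j → σ / R ≤ ‖ω i - ω j‖) {f : ι → Fin d → Space d}
    (hf : ∀ i, Orthonormal ℝ (Fin.cons (nor (ω i)) (f i) : Fin (d + 1) → Space d)) {a : ι → Space d}
    (ha : ∀ i, ‖a i‖ ≤ R ^ 2) (W : Finset (Vec d))
    (hW : ∀ v : Vec d, ‖v‖ ≤ 1 → ∃ w ∈ W, ‖v - w‖ < 1 / (K * R ^ (m + 1)))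
    (g : Vec d → Fin d → Space d)
    (hg : ∀ w, Orthonormal ℝ (Fin.cons (nor w) (g w) : Fin (d + 1) → Space d)) (x : Space d) :
    ENNReal.ofReal ((θ * σ / R * (K * R ^ (m + 1)) / 16) ^ d) * Fb R ω f a x ≤
      Fb (K * R ^ (m + 1)) (fun w : W => (w : Vec d)) (fun w : W => g w)
        (fun w : W => WithLp.toLp 2 ((K * R ^ (m + 1)) ^ 2 •
          gradient (pot (θ * σ / R) (vb m K R ω a) ω) w, (0:ℝ)))
        ((cd d * (K * R ^ (m + 1)) / R) • x) := by
  classical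
  obtain ⟨hR0, hK0, hN0, hRN, hN1, hρ0, hρ1, hρN⟩ := P.facts
  have hσ := P.hσ
  have hθ := P.hθ
  have hd := P.hd
  have hR := P.hR
  have hsep2 := sep_two P hsep
  set N := K * R ^ (m + 1) with hN
  set ρ := θ * σ / R with hρ
  set b := vb m K R ω a with hb
  set φ := pot ρ b ω with hφ
  set H : Vec d → ℝ≥0∞ := fun w => (box N (nor w) (g w)
    (WithLp.toLp 2 (N ^ 2 • gradient φ w, (0:ℝ)))).indicator (fun _ => (1 : ℝ≥0∞))
      ((cd d * N / R) • x) with hH
  have e1 : Fb N (fun w : W => (w : Vec d)) (fun w : W => g w)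
      (fun w : W => WithLp.toLp 2 (N ^ 2 • gradient φ w, (0:ℝ))) ((cd d * N / R) • x) = ∑ w ∈ W, H w := by
    unfold Fb
    exact Finset.sum_coe_sort W H
  rw [e1]
  set J : ι → Finset (Vec d) := fun i => W.filter fun w => ‖w - ω i‖ ≤ ρ / 4 with hJ
  have hdisj : ((Finset.univ : Finset ι) : Set ι).PairwiseDisjoint J := by
    intro i _ j _ hij
    rw [Function.onFun, Finset.disjoint_left]
    intro w hwi hwj
    have h1 := (Finset.mem_filter.1 hwi).2
    have h2 := (Finset.mem_filter.1 hwj).2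
    have h3 := hsep2 i j hij
    have h4 : ‖ω i - ω j‖ ≤ ‖w - ω i‖ + ‖w - ω j‖ := by
      have : ω i - ω j = (w - ω j) - (w - ω i) := by abel
      rw [this]
      linarith [norm_sub_le (w - ω j) (w - ω i)]
    linarith
  have hsub : Finset.univ.biUnion J ⊆ W := by
    intro w hw
    obtain ⟨i, _, hi⟩ := Finset.mem_biUnion.1 hw
    exact (Finset.mem_filter.1 hi).1
  have hρ4 : ρ / 4 ≤ 1 / (16 * R) := by
    rw [hρ, div_div, div_le_div_iff₀ (by positivity) (by positivity)]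
    have : θ * σ ≤ 1 / 4 := by
      have := P.hθ1
      have := P.hσ1
      nlinarith
    nlinarith
  have hterm : ∀ i, ENNReal.ofReal ((ρ * N / 16) ^ d) *
      (box R (nor (ω i)) (f i) (a i)).indicator (fun _ => (1 : ℝ≥0∞)) x ≤ ∑ w ∈ J i, H w := by
    intro i
    by_cases hx : x ∈ box R (nor (ω i)) (f i) (a i)
    · rw [indicator_of_mem hx, mul_one]
      have h1 : ∀ w ∈ J i, H w = 1 := by
        intro w hw
        have hw2 := (Finset.mem_filter.1 hw).2
        have h2 : gradient φ w = b i := pot_grad_in hρ0 b ω hsep2 i (by linarith)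
        have h3 : N ^ 2 • gradient φ w = (cd d * N / R) • foot (ω i) (a i) := by
          rw [h2, hb]
          unfold vb
          rw [← hN, smul_smul, mul_inv_cancel₀ (by positivity), one_smul]
        rw [hH]
        show (box N (nor w) (g w) (WithLp.toLp 2 (N ^ 2 • gradient φ w, (0:ℝ)))).indicator
          (fun _ => (1 : ℝ≥0∞)) ((cd d * N / R) • x) = 1
        rw [h3, indicator_of_mem]
        exact incl hR hRN (hω i) (hw2.trans hρ4) (hf i) (hg w) (ha i) hx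
      rw [Finset.sum_congr rfl h1, Finset.sum_const, nsmul_eq_mul, mul_one, ← ENNReal.ofReal_natCast]
      apply ENNReal.ofReal_le_ofReal
      exact net_near hd hN1 hρ0 hρ1 hρN hW (hω i)
    · rw [indicator_of_notMem hx, mul_zero]
      exact zero_le
  calc ENNReal.ofReal ((ρ * N / 16) ^ d) * Fb R ω f a x
      = ∑ i, ENNReal.ofReal ((ρ * N / 16) ^ d) *
          (box R (nor (ω i)) (f i) (a i)).indicator (fun _ => (1 : ℝ≥0∞)) x := by
        unfold Fb
        rw [Finset.mul_sum]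
    _ ≤ ∑ i, ∑ w ∈ J i, H w := Finset.sum_le_sum fun i _ => hterm i
    _ = ∑ w ∈ Finset.univ.biUnion J, H w := (Finset.sum_biUnion hdisj).symm
    _ ≤ ∑ w ∈ W, H w := Finset.sum_le_sum_of_subset hsub

/-- The construction. -/
theorem build (P : Par d m η σ θ G K R) {ω : ι → Vec d} (hω : ∀ i, ‖ω i‖ ≤ 1)
    (hsep : ∀ i j, i ≠ j → σ / R ≤ ‖ω i - ω j‖) {f : ι → Fin d → Space d}
    (hf : ∀ i, Orthonormal ℝ (Fin.cons (nor (ω i)) (f i) : Fin (d + 1) → Space d)) {a : ι → Space d}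
    (ha : ∀ i, ‖a i‖ ≤ R ^ 2) :
    ∃ (κ : Type) (_ : Fintype κ) (w : κ → Vec d) (g : κ → Fin d → Space d) (A : κ → Space d),
      (∀ k, ‖w k‖ ≤ 1) ∧ (∀ k l, k ≠ l → 1 / (K * R ^ (m + 1)) ≤ ‖w k - w l‖) ∧
      1 * (K * R ^ (m + 1)) ^ d ≤ (Fintype.card κ : ℝ) ∧
      (∀ k, Orthonormal ℝ (Fin.cons (nor (w k)) (g k) : Fin (d + 1) → Space d)) ∧
      NearC m η (K * R ^ (m + 1)) w A ∧
      ∀ x, ENNReal.ofReal ((θ * σ / R * (K * R ^ (m + 1)) / 16) ^ d) * Fb R ω f a x ≤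
        Fb (K * R ^ (m + 1)) w g A ((cd d * (K * R ^ (m + 1)) / R) • x) := by
  obtain ⟨hR0, hK0, hN0, hRN, hN1, hρ0, hρ1, hρN⟩ := P.facts
  obtain ⟨W, hW1, hW2, hW3, hW4⟩ := net_vec P.hd hN1
  have hfr : ∀ w : Vec d, ∃ g : Fin d → Space d,
      Orthonormal ℝ (Fin.cons (nor w) g : Fin (d + 1) → Space d) := fun w => exists_frame (nor w) (norm_dir _)
  choose g hg using hfr
  refine ⟨W, inferInstance, fun w => (w : Vec d), fun w => g w, fun w => WithLp.toLp 2
    ((K * R ^ (m + 1)) ^ 2 • gradient (pot (θ * σ / R) (vb m K R ω a) ω) w, (0:ℝ)), fun w => hW1 w w.2,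
    fun w v hwv => hW2 w w.2 v v.2 (fun h => hwv (Subtype.ext h)), ?_, fun w => hg w, ?_, ?_⟩
  · rw [one_mul, Fintype.card_coe]
    exact hW4
  · refine ⟨pot (θ * σ / R) (vb m K R ω a) ω, pot_contDiff _ _ _, fun j hj v => pot_small P hω ha hsep hj v,
      fun w => rfl, ?_, ?_⟩
    · intro w
      refine le_trans (le_of_eq ?_) (grad_small P hω ha hsep w)
      rw [WithLp.prod_norm_eq_of_L2]
      show √(‖(K * R ^ (m + 1)) ^ 2 • gradient (pot (θ * σ / R) (vb m K R ω a) ω) w‖ ^ 2 + ‖(0:ℝ)‖ ^ 2) = _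
      rw [norm_zero, norm_smul, Real.norm_of_nonneg (by positivity)]
      rw [show ((K * R ^ (m + 1)) ^ 2 * ‖gradient (pot (θ * σ / R) (vb m K R ω a) ω) ↑w‖) ^ 2 + (0:ℝ) ^ 2 =
        ((K * R ^ (m + 1)) ^ 2 * ‖gradient (pot (θ * σ / R) (vb m K R ω a) ω) ↑w‖) ^ 2 by ring]
      exact Real.sqrt_sq (by positivity)
    · refine count_nonzero P hω hsep W hW2 (vb m K R ω a) _ ?_
      intro w hw
      show WithLp.toLp 2 ((K * R ^ (m + 1)) ^ 2 • gradient (pot (θ * σ / R) (vb m K R ω a) ω) w, (0:ℝ)) = 0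
      rw [hw, smul_zero]
      rfl
  · intro x
    exact sum_ineq P hω hsep hf ha W hW3 g hg x

end Pool.Agent.J4.H89.NC
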