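import Pool.Agent.J4.H89.NC.C
import Pool.Agent.J4.H89.NC.F
import Pool.Agent.J4.H87.HypI

set_option autoImplicit false
set_option linter.unusedVariables false

/-! The integral of the small scale. -/

open MeasureTheory Set Filter Topology ENNReal NNReal Metric

namespace Pool.Agent.J4.H89.NC

open Pool.Agent.H810R3.Tub (Vec Space nor box Fb norm_dir Fb_measurable enorm_sum_box finrank_space)

variable {d : ℕ}

/-- From the norms to the integrals. -/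
theorem int_of_norm {ι : Type} [Fintype ι] (N : ℝ) (ω : ι → Vec d)
    (f : ι → Fin d → Space d) (a : ι → Space d) {p D : ℝ} (hp : 1 ≤ p) (hD : 0 ≤ D)
    (h : eLpNorm (fun y : Space d => ∑ i, (box N (nor (ω i)) (f i) (a i)).indicator (fun _ => (1 : ℝ)) y)
      (ENNReal.ofReal p) volume ≤ ENNReal.ofReal D *
        eLpNorm (fun y : Space d => ∑ i,
          (box N (nor (ω i)) (f i) 0).indicator (fun _ => (1 : ℝ)) y) (ENNReal.ofReal p) volume) :
    ∫⁻ y, Fb N ω f a y ^ p ≤ ENNReal.ofReal (D ^ p) * ∫⁻ y, Fb N ω f (fun _ => 0) y ^ p := by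
  have hp0 : 0 < p := by linarith
  have hp1 : ENNReal.ofReal p ≠ 0 := by
    rw [ne_eq, ENNReal.ofReal_eq_zero, not_le]
    exact hp0
  rw [eLpNorm_eq_lintegral_rpow_enorm_toReal hp1 ENNReal.ofReal_ne_top,
    eLpNorm_eq_lintegral_rpow_enorm_toReal hp1 ENNReal.ofReal_ne_top, ENNReal.toReal_ofReal hp0.le] at h
  have e1 : ∫⁻ y : Space d, ‖∑ i, (box N (nor (ω i)) (f i) (a i)).indicator (fun _ => (1 : ℝ)) y‖ₑ ^ p =
      ∫⁻ y, Fb N ω f a y ^ p := by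
    refine lintegral_congr fun y => ?_
    rw [enorm_sum_box]
  have e2 : ∫⁻ y : Space d, ‖∑ i, (box N (nor (ω i)) (f i) 0).indicator (fun _ => (1 : ℝ)) y‖ₑ ^ p =
      ∫⁻ y, Fb N ω f (fun _ => 0) y ^ p := by
    refine lintegral_congr fun y => ?_
    rw [← enorm_sum_box]
  rw [e1, e2] at h
  have h2 := ENNReal.rpow_le_rpow h hp0.le
  rw [ENNReal.mul_rpow_of_nonneg _ _ hp0.le, ← ENNReal.rpow_mul, ← ENNReal.rpow_mul, one_div_mul_cancel hp0.ne',
    ENNReal.rpow_one, ENNReal.rpow_one, ENNReal.ofReal_rpow_of_nonneg hD hp0.le] at h2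
  exact h2

/-- The centred family. -/
theorem centred_up (hd : 1 ≤ d) : ∃ c : ℝ, 0 < c ∧ ∀ N : ℝ, 1 ≤ N → ∀ (κ : Type) [Fintype κ]
    (w : κ → Vec d) (g : κ → Fin d → Space d), (∀ k, ‖w k‖ ≤ 1) →
    (∀ k l, k ≠ l → 1 / N ≤ ‖w k - w l‖) →
    (∀ k, Orthonormal ℝ (Fin.cons (nor (w k)) (g k) : Fin (d + 1) → Space d)) →
    ∫⁻ y, Fb N w g (fun _ => 0) y ^ (1 + 1 / (d : ℝ)) ≤
      ENNReal.ofReal (c * ((Fintype.card κ : ℝ) ^ (1 / (d : ℝ)) * N ^ (2 * d + 1)) * (1 + Real.log N)) := by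
  have hW : 1 ≤ Pool.Agent.J4.H87.Hyp.W (fun r => if r = 0 then 8 * ((1 : ℕ) : ℝ) else 8) 0 (d - 1) :=
    Pool.Agent.J4.H87.Hyp.W_pos (fun r => by split_ifs <;> norm_num) _ _
  have hd0 : (0 : ℝ) ≤ d := Nat.cast_nonneg d
  have hK : (1 : ℝ) ≤ 0 + d + 1 := by linarith
  have hC1 := Pool.Agent.J4.H87.Hyp.C1_ge (d := d) (σ := 1) (K := 0 + d + 1) one_pos le_rfl hK
  refine ⟨Pool.Agent.J4.H87.Hyp.C1 d 1 (0 + d + 1) *
    Pool.Agent.J4.H87.Hyp.W (fun r => if r = 0 then 8 * ((1 : ℕ) : ℝ) else 8) 0 (d - 1) ^ (1 / (d : ℝ)),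
    by
      have h1 : 0 < Pool.Agent.J4.H87.Hyp.C1 d 1 (0 + d + 1) := by linarith
      have h2 : 0 < Pool.Agent.J4.H87.Hyp.W (fun r => if r = 0 then 8 * ((1 : ℕ) : ℝ) else 8) 0 (d - 1) := by
        linarith
      positivity, ?_⟩
  intro N hN κ _ w g hw hsep hg
  have hN0 : 0 < N := by linarith
  have hS : Pool.Agent.J4.H87.Hyp.Sep N 1 w g := ⟨hN, one_pos, le_rfl, hw, hsep, hg⟩
  have hO := Pool.Agent.J4.H87.Hyp.org_lines (K := 0) hN hg (fun _ => (0 : Space d)) (n := 1) le_rfl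
    (fun _ => 0) (fun _ => 0) (by
      intro i
      refine ⟨0, 0, ?_, 0, ?_⟩
      · constructor
        · rw [sub_zero, inner_zero_right, abs_zero]
          positivity
        · intro j
          rw [sub_zero, inner_zero_right, abs_zero]
          positivity
      · simp) (fun i => i.elim0)
  exact Pool.Agent.J4.H87.Hyp.crit_top hd (μ := fun r => if r = 0 then 8 * ((1 : ℕ) : ℝ) else 8)
    (fun r => by show 1 ≤ (if r = 0 then 8 * ((1 : ℕ) : ℝ) else 8); split_ifs <;> norm_num) hS hK _ _ hO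

/-- Dilations. -/
theorem int_scale (F : Space d → ℝ≥0∞) (hF : Measurable F) {r : ℝ} (hr : 0 < r) :
    ∫⁻ x, F (r • x) = ENNReal.ofReal ((r ^ (d + 1))⁻¹) * ∫⁻ y, F y := by
  have h1 := Measure.map_addHaar_smul (volume : Measure (Space d)) hr.ne'
  rw [finrank_space, abs_of_pos (by positivity)] at h1
  have h2 : ∫⁻ y, F y ∂(Measure.map (r • ·) (volume : Measure (Space d))) = ∫⁻ x, F (r • x) :=
    lintegral_map hF (measurable_const_smul r)
  rw [← h2, h1, lintegral_smul_measure, smul_eq_mul]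

/-- The hypothesis for the near-centred families. -/
def HypN (d m : ℕ) (η γ A0 : ℝ) : Prop :=
  ∀ N : ℝ, 1 ≤ N → ∀ (κ : Type) [Fintype κ] (w : κ → Vec d) (g : κ → Fin d → Space d) (A : κ → Space d),
    (∀ k, ‖w k‖ ≤ 1) → (∀ k l, k ≠ l → 1 / N ≤ ‖w k - w l‖) → 1 * N ^ d ≤ (Fintype.card κ : ℝ) →
    (∀ k, Orthonormal ℝ (Fin.cons (nor (w k)) (g k) : Fin (d + 1) → Space d)) → NearC m η N w A →
    eLpNorm (fun y : Space d => ∑ k, (box N (nor (w k)) (g k) (A k)).indicator (fun _ => (1 : ℝ)) y)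
      (ENNReal.ofReal (1 + 1 / (d : ℝ))) volume ≤ ENNReal.ofReal (A0 * N ^ γ) *
        eLpNorm (fun y : Space d => ∑ k,
          (box N (nor (w k)) (g k) 0).indicator (fun _ => (1 : ℝ)) y) (ENNReal.ofReal (1 + 1 / (d : ℝ))) volume

theorem dq (hd : 1 ≤ d) {x : ℝ} (hx : 0 < x) : (x ^ d) ^ (1 + 1 / (d : ℝ)) = x ^ (d + 1) := by
  have hd0 : (0 : ℝ) < d := by exact_mod_cast hd
  rw [← Real.rpow_natCast, ← Real.rpow_mul hx.le, ← Real.rpow_natCast]
  congr 1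
  push_cast
  field_simp

/-- The integral of the small scale. -/
theorem main_int (hd : 1 ≤ d) (m : ℕ) {η γ A0 σ κ : ℝ} (hη : 0 < η) (hγ : 0 ≤ γ) (hA0 : 0 < A0)
    (H : HypN d m η γ A0) (hσ : 0 < σ) (hσ1 : σ ≤ 1) (hκ : 0 < κ) :
    ∃ C : ℝ, 0 < C ∧ ∀ R : ℝ, 1 ≤ R → ∀ (ι : Type) [Fintype ι] (ω : ι → Vec d) (f : ι → Fin d → Space d)
      (a : ι → Space d), (∀ i, ‖ω i‖ ≤ 1) → (∀ i j, i ≠ j → σ / R ≤ ‖ω i - ω j‖) →
      κ * R ^ d ≤ (Fintype.card ι : ℝ) →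
      (∀ i, Orthonormal ℝ (Fin.cons (nor (ω i)) (f i) : Fin (d + 1) → Space d)) →
      ∫⁻ y, Fb R ω f a y ^ (1 + 1 / (d : ℝ)) ≤
        ENNReal.ofReal ((C * R ^ (((m : ℝ) + 1) * γ * (1 + 1 / (d : ℝ)))) *
          ((Fintype.card ι : ℝ) ^ (1 / (d : ℝ)) * R ^ (2 * d + 1)) * (1 + Real.log R)) := by
  have hd0 : (0 : ℝ) < d := by exact_mod_cast hd
  obtain ⟨θ, G, K, hP⟩ := exists_par hd m hη hσ hσ1
  obtain ⟨c, hc, hcen⟩ := centred_up hd
  have P1 := hP 1 le_rfl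
  have hθ := P1.hθ
  have hK1 := P1.hK1
  have hK0 : 0 < K := by linarith
  have hcd := cd_pos d
  set q : ℝ := 1 + 1 / (d : ℝ) with hq
  have hq1 : 1 ≤ q := by
    have : 0 < 1 / (d : ℝ) := by positivity
    linarith
  have hq0 : 0 < q := by linarith
  set L : ℝ := ((2 * (d : ℝ) + 5) ^ (d + 1)) ^ (q - 1) with hL
  have hL0 : 0 < L := by positivity
  have hlogK : 0 ≤ Real.log K := Real.log_nonneg hK1
  refine ⟨L * (16 / (θ * σ * cd d)) ^ (d + 1) * (A0 * K ^ γ) ^ q * (3 * c) * (1 + Real.log K + (m + 1)) *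
    (κ ^ (1 / (d : ℝ)))⁻¹, by positivity, ?_⟩
  intro R hR ι _ ω f a hω hsep hcard hf
  have P := hP R hR
  obtain ⟨hR0, -, hN0, hRN, hN1, hρ0, hρ1, hρN⟩ := P.facts
  obtain ⟨a', ha', hloc⟩ := localise hR hf a hq1
  obtain ⟨τ, hτ, w, g, A, hw1, hw2, hw3, hw4, hw5, hw6⟩ := build P hω hsep hf ha'
  set N : ℝ := K * R ^ (m + 1) with hN
  have h1 := H N hN1 τ w g A hw1 hw2 hw3 hw4 hw5
  have h2 := int_of_norm N w g A hq1 (by positivity) h1
  have h3 := hcen N hN1 τ w g hw1 hw2 hw4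
  have hcardτ : (Fintype.card τ : ℝ) ^ (1 / (d : ℝ)) ≤ 3 * N := by
    have h4 := card_caps hd hN1 (σ := 1) one_pos le_rfl hw1 hw2
    rw [div_one] at h4
    calc (Fintype.card τ : ℝ) ^ (1 / (d : ℝ)) ≤ ((3 * N) ^ d) ^ (1 / (d : ℝ)) :=
          Real.rpow_le_rpow (Nat.cast_nonneg _) h4 (by positivity)
      _ = 3 * N := by
          rw [one_div, Real.pow_rpow_inv_natCast (by positivity) (by omega)]
  have hlogN : 0 ≤ Real.log N := Real.log_nonneg hN1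
  -- the upper bound for the large scale
  have h5 : ∫⁻ y, Fb N w g A y ^ q ≤
      ENNReal.ofReal ((A0 * N ^ γ) ^ q * (3 * c * N ^ (2 * d + 2) * (1 + Real.log N))) := by
    refine h2.trans ?_
    rw [ENNReal.ofReal_mul (by positivity)]
    apply mul_le_mul' le_rfl
    refine h3.trans (ENNReal.ofReal_le_ofReal ?_)
    apply mul_le_mul_of_nonneg_right _ (by linarith)
    calc c * ((Fintype.card τ : ℝ) ^ (1 / (d : ℝ)) * N ^ (2 * d + 1)) ≤ c * ((3 * N) * N ^ (2 * d + 1)) := by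
          gcongr
      _ = _ := by ring
  -- the comparison
  set lam : ℝ := cd d * N / R with hlam
  have hlam0 : 0 < lam := by positivity
  set k0 : ℝ := θ * σ / R * N / 16 with hk0
  have hk00 : 0 < k0 := by
    have := P.hσ
    positivity
  have h6 : ENNReal.ofReal (k0 ^ (d + 1)) * ∫⁻ x, Fb R ω f a' x ^ q ≤
      ENNReal.ofReal ((lam ^ (d + 1))⁻¹) * ∫⁻ y, Fb N w g A y ^ q := by
    rw [← int_scale (fun y => Fb N w g A y ^ q) ((Fb_measurable N w g A).pow_const q) hlam0,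
      ← lintegral_const_mul _ ((Fb_measurable R ω f a').pow_const q)]
    apply lintegral_mono
    intro x
    show ENNReal.ofReal (k0 ^ (d + 1)) * Fb R ω f a' x ^ q ≤ Fb N w g A (lam • x) ^ q
    have h7 := ENNReal.rpow_le_rpow (hw6 x) hq0.le
    rw [ENNReal.mul_rpow_of_nonneg _ _ hq0.le, ENNReal.ofReal_rpow_of_nonneg (by positivity) hq0.le] at h7
    have h8 : (k0 ^ d) ^ q = k0 ^ (d + 1) := dq hd hk00
    rw [h8] at h7
    exact h7
  have h9 : ∫⁻ x, Fb R ω f a' x ^ q ≤ ENNReal.ofReal ((k0 ^ (d + 1))⁻¹ * ((lam ^ (d + 1))⁻¹ *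
      ((A0 * N ^ γ) ^ q * (3 * c * N ^ (2 * d + 2) * (1 + Real.log N))))) := by
    have h10 : ENNReal.ofReal (k0 ^ (d + 1)) * ∫⁻ x, Fb R ω f a' x ^ q ≤ ENNReal.ofReal ((lam ^ (d + 1))⁻¹ *
      ((A0 * N ^ γ) ^ q * (3 * c * N ^ (2 * d + 2) * (1 + Real.log N)))) := by
      refine h6.trans ?_
      rw [ENNReal.ofReal_mul (by positivity)]
      exact mul_le_mul' le_rfl h5
    rw [ENNReal.ofReal_mul (by positivity), ENNReal.ofReal_inv_of_pos (by positivity)]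
    rw [mul_comm, ← ENNReal.le_div_iff_mul_le (Or.inl (by
      rw [ne_eq, ENNReal.ofReal_eq_zero, not_le]; positivity)) (Or.inl ENNReal.ofReal_ne_top)] at h10
    refine h10.trans (le_of_eq ?_)
    rw [div_eq_mul_inv, mul_comm]
  refine hloc.trans ?_
  have h11 : ENNReal.ofReal L * ∫⁻ x, Fb R ω f a' x ^ q ≤ ENNReal.ofReal (L * ((k0 ^ (d + 1))⁻¹ *
      ((lam ^ (d + 1))⁻¹ * ((A0 * N ^ γ) ^ q * (3 * c * N ^ (2 * d + 2) * (1 + Real.log N)))))) := by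
    rw [ENNReal.ofReal_mul hL0.le]
    exact mul_le_mul' le_rfl h9
  refine h11.trans (ENNReal.ofReal_le_ofReal ?_)
  -- arithmetic
  have hlogR : 0 ≤ Real.log R := Real.log_nonneg hR
  have hlog : 1 + Real.log N ≤ (1 + Real.log K + (m + 1)) * (1 + Real.log R) := by
    rw [hN, Real.log_mul hK0.ne' (by positivity), Real.log_pow]
    push_cast
    nlinarith [mul_nonneg hlogK hlogR]
  have hpow : (A0 * N ^ γ) ^ q = (A0 * K ^ γ) ^ q * R ^ (((m : ℝ) + 1) * γ * q) := by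
    have e1 : N ^ γ = K ^ γ * R ^ (((m : ℝ) + 1) * γ) := by
      rw [hN, Real.mul_rpow hK0.le (by positivity), ← Real.rpow_natCast R (m + 1), ← Real.rpow_mul hR0.le]
      push_cast
      rfl
    rw [e1, ← mul_assoc, Real.mul_rpow (by positivity) (by positivity), ← Real.rpow_mul hR0.le]
  have hcancel : (k0 ^ (d + 1))⁻¹ * (lam ^ (d + 1))⁻¹ * N ^ (2 * d + 2) =
      (16 / (θ * σ * cd d)) ^ (d + 1) * R ^ (2 * d + 2) := by
    have e2 : ∀ x : ℝ, x ^ (2 * d + 2) = (x ^ 2) ^ (d + 1) := by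
      intro x
      rw [← pow_mul]
      congr 1
    rw [e2, e2, ← inv_pow, ← inv_pow, ← mul_pow, ← mul_pow, ← mul_pow]
    congr 1
    rw [hk0, hlam]
    have := P.hσ
    field_simp
  have hcardR : R ≤ (κ ^ (1 / (d : ℝ)))⁻¹ * (Fintype.card ι : ℝ) ^ (1 / (d : ℝ)) := by
    have e3 : κ ^ (1 / (d : ℝ)) * R ≤ (Fintype.card ι : ℝ) ^ (1 / (d : ℝ)) := by
      calc κ ^ (1 / (d : ℝ)) * R = (κ * R ^ d) ^ (1 / (d : ℝ)) := by
            rw [Real.mul_rpow hκ.le (by positivity), one_div, Real.pow_rpow_inv_natCast hR0.le (by omega)]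
        _ ≤ _ := Real.rpow_le_rpow (by positivity) hcard (by positivity)
    rw [inv_mul_eq_div, le_div_iff₀ (Real.rpow_pos_of_pos hκ _), mul_comm]
    exact e3
  set z : ℝ := (Fintype.card ι : ℝ) ^ (1 / (d : ℝ)) with hz
  have hz0 : 0 ≤ z := Real.rpow_nonneg (Nat.cast_nonneg _) _
  set Y : ℝ := (κ ^ (1 / (d : ℝ)))⁻¹ with hY
  have hY0 : 0 < Y := by
    rw [hY]
    have := Real.rpow_pos_of_pos hκ (1 / (d : ℝ))
    positivity
  set B : ℝ := (16 / (θ * σ * cd d)) ^ (d + 1) with hB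
  have hB0 : 0 < B := by
    have := P.hσ
    positivity
  set Z : ℝ := (A0 * K ^ γ) ^ q with hZ
  have hZ0 : 0 < Z := Real.rpow_pos_of_pos (by positivity) _
  set S : ℝ := R ^ (((m : ℝ) + 1) * γ * q) with hS
  have hS0 : 0 < S := Real.rpow_pos_of_pos hR0 _
  calc L * ((k0 ^ (d + 1))⁻¹ * ((lam ^ (d + 1))⁻¹ *
        ((A0 * N ^ γ) ^ q * (3 * c * N ^ (2 * d + 2) * (1 + Real.log N)))))
      = L * (((k0 ^ (d + 1))⁻¹ * (lam ^ (d + 1))⁻¹ * N ^ (2 * d + 2)) * (A0 * N ^ γ) ^ q * (3 * c) *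
          (1 + Real.log N)) := by ring
    _ = L * ((B * R ^ (2 * d + 2)) * (Z * S) * (3 * c) * (1 + Real.log N)) := by rw [hcancel, hpow]
    _ ≤ L * ((B * R ^ (2 * d + 2)) * (Z * S) * (3 * c) *
          ((1 + Real.log K + (m + 1)) * (1 + Real.log R))) := by gcongr
    _ = (L * B * Z * (3 * c) * (1 + Real.log K + (m + 1)) * S * R ^ (2 * d + 1) * (1 + Real.log R)) * R := by
        rw [show 2 * d + 2 = (2 * d + 1) + 1 by ring, pow_succ R (2 * d + 1)]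
        ring
    _ ≤ (L * B * Z * (3 * c) * (1 + Real.log K + (m + 1)) * S * R ^ (2 * d + 1) * (1 + Real.log R)) *
          (Y * z) := by
        apply mul_le_mul_of_nonneg_left hcardR (by positivity)
    _ = _ := by ring

end Pool.Agent.J4.H89.NC
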