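import Pool.Agent.J4.H89.NC.G

set_option autoImplicit false
set_option linter.unusedVariables false

/-! The norms of the small scale. -/

open MeasureTheory Set Filter Topology ENNReal NNReal Metric

namespace Pool.Agent.J4.H89.NC

open Pool.Agent.H810R3.Tub (Vec Space nor box Fb norm_dir Fb_measurable enorm_sum_box finrank_space wv wv_pos)

variable {d : ℕ}

/-- The centred family above the critical exponent. -/
theorem centred_up_q (hd : 1 ≤ d) {q : ℝ} (hq : 1 + 1 / (d : ℝ) < q) : ∃ c : ℝ, 0 < c ∧ ∀ N : ℝ, 1 ≤ N →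
    ∀ (κ : Type) [Fintype κ] (w : κ → Vec d) (g : κ → Fin d → Space d), (∀ k, ‖w k‖ ≤ 1) →
    (∀ k l, k ≠ l → 1 / N ≤ ‖w k - w l‖) →
    (∀ k, Orthonormal ℝ (Fin.cons (nor (w k)) (g k) : Fin (d + 1) → Space d)) →
    ∫⁻ y, Fb N w g (fun _ => 0) y ^ q ≤ ENNReal.ofReal (c * N ^ ((d : ℝ) + 1 + (d : ℝ) * q)) := by
  have hd0 : (0 : ℝ) < d := by exact_mod_cast hd
  have hK : (1 : ℝ) ≤ 0 + d + 1 := by linarith
  have e1 : (((d - 1 : ℕ) : ℝ) + 1) = d := by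
    have : ((d - 1 : ℕ) : ℝ) + 1 = ((d - 1 + 1 : ℕ) : ℝ) := by push_cast; ring
    rw [this]
    congr 1
    omega
  obtain ⟨A, hA0, hA⟩ := Pool.Agent.J4.H87.Hyp.sup_int d (σ := 1) one_pos le_rfl hK
    (μ := fun r => if r = 0 then 8 * ((1 : ℕ) : ℝ) else 8)
    (fun r => by show 1 ≤ (if r = 0 then 8 * ((1 : ℕ) : ℝ) else 8); split_ifs <;> norm_num) (d - 1) q
    (by rw [e1]; exact hq)
  refine ⟨A, hA0, ?_⟩
  intro N hN κ _ w g hw hsep hg
  have hN0 : 0 < N := by linarith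
  have hS : Pool.Agent.J4.H87.Hyp.Sep N 1 w g := ⟨hN, one_pos, le_rfl, hw, hsep, hg⟩
  have hO := Pool.Agent.J4.H87.Hyp.org_lines (K := 0) hN hg (fun _ => (0 : Space d)) (n := 1) le_rfl
    (fun _ => 0) (fun _ => 0) (by
      intro i
      refine ⟨0, 0, ?_, 0, ?_⟩
      · constructor
        · rw [sub_zero, inner_zero_right, abs_zero]
          positivity
        · intro j
          rw [sub_zero, inner_zero_right, abs_zero]
          positivity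
      · simp) (fun i => i.elim0)
  have h := hA κ N w g hS (fun _ => 0) 0 (by omega) (fun i => i.elim0) Finset.univ
    ⟨fun i => i.elim0, fun i => i.elim0⟩ (fun i _ l => l.elim0) hO
  rw [e1] at h
  exact h

/-- The hypothesis for the near-centred families at the exponent `q`. -/
def HypQ (d m : ℕ) (q η γ A0 : ℝ) : Prop :=
  ∀ N : ℝ, 1 ≤ N → ∀ (κ : Type) [Fintype κ] (w : κ → Vec d) (g : κ → Fin d → Space d) (A : κ → Space d),
    (∀ k, ‖w k‖ ≤ 1) → (∀ k l, k ≠ l → 1 / N ≤ ‖w k - w l‖) → 1 * N ^ d ≤ (Fintype.card κ : ℝ) →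
    (∀ k, Orthonormal ℝ (Fin.cons (nor (w k)) (g k) : Fin (d + 1) → Space d)) → NearC m η N w A →
    eLpNorm (fun y : Space d => ∑ k, (box N (nor (w k)) (g k) (A k)).indicator (fun _ => (1 : ℝ)) y)
      (ENNReal.ofReal q) volume ≤ ENNReal.ofReal (A0 * N ^ γ) *
        eLpNorm (fun y : Space d => ∑ k,
          (box N (nor (w k)) (g k) 0).indicator (fun _ => (1 : ℝ)) y) (ENNReal.ofReal q) volume

/-- The comparison for all exponents `p ≥ q > (d+1)/d`. -/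
theorem main_q (hd : 1 ≤ d) (m : ℕ) {q η γ A0 σ κ : ℝ} (hq : 1 + 1 / (d : ℝ) < q) (hη : 0 < η) (hγ : 0 ≤ γ)
    (hA0 : 0 < A0) (H : HypQ d m q η γ A0) (hσ : 0 < σ) (hσ1 : σ ≤ 1) (hκ : 0 < κ) :
    ∃ C : ℝ, 0 < C ∧ ∀ R : ℝ, 1 ≤ R → ∀ (ι : Type) [Fintype ι] (ω : ι → Vec d) (f : ι → Fin d → Space d)
      (a : ι → Space d), (∀ i, ‖ω i‖ ≤ 1) → (∀ i j, i ≠ j → σ / R ≤ ‖ω i - ω j‖) →
      κ * R ^ d ≤ (Fintype.card ι : ℝ) →
      (∀ i, Orthonormal ℝ (Fin.cons (nor (ω i)) (f i) : Fin (d + 1) → Space d)) →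
      ∀ p : ℝ≥0∞, ENNReal.ofReal q ≤ p →
      eLpNorm (fun y : Space d => ∑ i, (box R (nor (ω i)) (f i) (a i)).indicator (fun _ => (1 : ℝ)) y) p volume
        ≤ ENNReal.ofReal (C * R ^ (((m : ℝ) + 1) * γ)) *
          eLpNorm (fun y : Space d => ∑ i,
            (box R (nor (ω i)) (f i) 0).indicator (fun _ => (1 : ℝ)) y) p volume := by
  have hd0 : (0 : ℝ) < d := by exact_mod_cast hd
  obtain ⟨θ, G, K, hP⟩ := exists_par hd m hη hσ hσ1
  obtain ⟨c, hc, hcen⟩ := centred_up_q hd hq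
  have P1 := hP 1 le_rfl
  have hθ := P1.hθ
  have hK1 := P1.hK1
  have hK0 : 0 < K := by linarith
  have hcd := cd_pos d
  have hinv : 0 < 1 / (d : ℝ) := by positivity
  have hq1 : 1 < q := by linarith
  have hq0 : 0 < q := by linarith
  set L : ℝ := ((2 * (d : ℝ) + 5) ^ (d + 1)) ^ (q - 1) with hL
  have hL0 : 0 < L := by positivity
  have hw0 := wv_pos d
  set T : ℝ := L * ((16 / (θ * σ)) ^ ((d : ℝ) * q) * ((cd d) ^ (d + 1))⁻¹) * (A0 * K ^ γ) ^ q * c with hT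
  have hT0 : 0 < T := by positivity
  set C0 : ℝ := 1 + T * (κ ^ q)⁻¹ * 2 ^ (d + 1) * (wv d)⁻¹ with hC0
  have hκq : 0 < κ ^ q := Real.rpow_pos_of_pos hκ _
  have hC1 : 1 ≤ C0 := by
    have : 0 ≤ T * (κ ^ q)⁻¹ * 2 ^ (d + 1) * (wv d)⁻¹ := by positivity
    linarith
  have hC00 : 0 < C0 := by linarith
  refine ⟨C0 ^ (1 / q), by positivity, ?_⟩
  intro R hR ι _ ω f a hω hsep hcard hf p hp
  have P := hP R hR
  obtain ⟨hR0, -, hN0, hRN, hN1, hρ0, hρ1, hρN⟩ := P.facts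
  have hc0 : (0 : ℝ) < (Fintype.card ι : ℝ) := lt_of_lt_of_le (by positivity) hcard
  have hne : Nonempty ι := by
    rw [← Fintype.card_pos_iff]
    exact_mod_cast hc0
  obtain ⟨a', ha', hloc⟩ := localise hR hf a hq1.le
  obtain ⟨τ, hτ, w, g, A, hw1, hw2, hw3, hw4, hw5, hw6⟩ := build P hω hsep hf ha'
  set N : ℝ := K * R ^ (m + 1) with hN
  have h1 := H N hN1 τ w g A hw1 hw2 hw3 hw4 hw5
  have h2 := int_of_norm N w g A hq1.le (by positivity) h1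
  have h3 := hcen N hN1 τ w g hw1 hw2 hw4
  -- the upper bound for the large scale
  have h5 : ∫⁻ y, Fb N w g A y ^ q ≤
      ENNReal.ofReal ((A0 * N ^ γ) ^ q * (c * N ^ ((d : ℝ) + 1 + (d : ℝ) * q))) := by
    refine h2.trans ?_
    rw [ENNReal.ofReal_mul (by positivity)]
    exact mul_le_mul' le_rfl h3
  -- the comparison
  set lam : ℝ := cd d * N / R with hlam
  have hlam0 : 0 < lam := by positivity
  set k0 : ℝ := θ * σ / R * N / 16 with hk0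
  have hk00 : 0 < k0 := by positivity
  have h6 : ENNReal.ofReal (k0 ^ ((d : ℝ) * q)) * ∫⁻ x, Fb R ω f a' x ^ q ≤
      ENNReal.ofReal ((lam ^ (d + 1))⁻¹) * ∫⁻ y, Fb N w g A y ^ q := by
    rw [← int_scale (fun y => Fb N w g A y ^ q) ((Fb_measurable N w g A).pow_const q) hlam0,
      ← lintegral_const_mul _ ((Fb_measurable R ω f a').pow_const q)]
    apply lintegral_mono
    intro x
    show ENNReal.ofReal (k0 ^ ((d : ℝ) * q)) * Fb R ω f a' x ^ q ≤ Fb N w g A (lam • x) ^ q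
    have h7 := ENNReal.rpow_le_rpow (hw6 x) hq0.le
    rw [ENNReal.mul_rpow_of_nonneg _ _ hq0.le, ENNReal.ofReal_rpow_of_nonneg (by positivity) hq0.le] at h7
    have h8 : (k0 ^ d) ^ q = k0 ^ ((d : ℝ) * q) := by
      rw [← Real.rpow_natCast k0 d, ← Real.rpow_mul hk00.le]
    rw [h8] at h7
    exact h7
  have hkp : 0 < k0 ^ ((d : ℝ) * q) := Real.rpow_pos_of_pos hk00 _
  have h9 : ∫⁻ x, Fb R ω f a' x ^ q ≤ ENNReal.ofReal ((k0 ^ ((d : ℝ) * q))⁻¹ * ((lam ^ (d + 1))⁻¹ *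
      ((A0 * N ^ γ) ^ q * (c * N ^ ((d : ℝ) + 1 + (d : ℝ) * q))))) := by
    have h10 : ENNReal.ofReal (k0 ^ ((d : ℝ) * q)) * ∫⁻ x, Fb R ω f a' x ^ q ≤
        ENNReal.ofReal ((lam ^ (d + 1))⁻¹ *
          ((A0 * N ^ γ) ^ q * (c * N ^ ((d : ℝ) + 1 + (d : ℝ) * q)))) := by
      refine h6.trans ?_
      rw [ENNReal.ofReal_mul (by positivity)]
      exact mul_le_mul' le_rfl h5
    rw [ENNReal.ofReal_mul (by positivity), ENNReal.ofReal_inv_of_pos (by positivity)]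
    rw [mul_comm, ← ENNReal.le_div_iff_mul_le (Or.inl (by
      rw [ne_eq, ENNReal.ofReal_eq_zero, not_le]; positivity)) (Or.inl ENNReal.ofReal_ne_top)] at h10
    refine h10.trans (le_of_eq ?_)
    rw [div_eq_mul_inv, mul_comm]
  have h11 : ∫⁻ y, Fb R ω f a y ^ q ≤ ENNReal.ofReal (L * ((k0 ^ ((d : ℝ) * q))⁻¹ *
      ((lam ^ (d + 1))⁻¹ * ((A0 * N ^ γ) ^ q * (c * N ^ ((d : ℝ) + 1 + (d : ℝ) * q)))))) := by
    refine hloc.trans ?_
    rw [ENNReal.ofReal_mul hL0.le]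
    exact mul_le_mul' le_rfl h9
  -- arithmetic
  have hpow : (A0 * N ^ γ) ^ q = (A0 * K ^ γ) ^ q * R ^ (((m : ℝ) + 1) * γ * q) := by
    have e1 : N ^ γ = K ^ γ * R ^ (((m : ℝ) + 1) * γ) := by
      rw [hN, Real.mul_rpow hK0.le (by positivity), ← Real.rpow_natCast R (m + 1), ← Real.rpow_mul hR0.le]
      push_cast
      rfl
    rw [e1, ← mul_assoc, Real.mul_rpow (by positivity) (by positivity), ← Real.rpow_mul hR0.le]
  have hcancel : (k0 ^ ((d : ℝ) * q))⁻¹ * (lam ^ (d + 1))⁻¹ * N ^ ((d : ℝ) + 1 + (d : ℝ) * q) =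
      ((16 / (θ * σ)) ^ ((d : ℝ) * q) * ((cd d) ^ (d + 1))⁻¹) * (R ^ ((d : ℝ) * q) * R ^ (d + 1)) := by
    have e1 : k0 = (16 / (θ * σ))⁻¹ * (R⁻¹ * N) := by
      rw [hk0]
      field_simp
    have e2 : N ^ ((d : ℝ) + 1 + (d : ℝ) * q) = N ^ (d + 1) * N ^ ((d : ℝ) * q) := by
      rw [Real.rpow_add hN0]
      congr 1
      rw [← Real.rpow_natCast N (d + 1)]
      push_cast
      rfl
    rw [e1, Real.mul_rpow (by positivity) (by positivity), Real.mul_rpow (by positivity) hN0.le,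
      Real.inv_rpow (by positivity), Real.inv_rpow hR0.le, e2, hlam, div_pow, mul_pow]
    have h12 : 0 < (16 / (θ * σ)) ^ ((d : ℝ) * q) := Real.rpow_pos_of_pos (by positivity) _
    have h13 : 0 < R ^ ((d : ℝ) * q) := Real.rpow_pos_of_pos hR0 _
    have h14 : 0 < N ^ ((d : ℝ) * q) := Real.rpow_pos_of_pos hN0 _
    generalize (16 / (θ * σ)) ^ ((d : ℝ) * q) = u at h12 ⊢
    generalize R ^ ((d : ℝ) * q) = v at h13 ⊢
    generalize N ^ ((d : ℝ) * q) = z at h14 ⊢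
    field_simp
  have hval : L * ((k0 ^ ((d : ℝ) * q))⁻¹ *
      ((lam ^ (d + 1))⁻¹ * ((A0 * N ^ γ) ^ q * (c * N ^ ((d : ℝ) + 1 + (d : ℝ) * q))))) =
      T * (R ^ (((m : ℝ) + 1) * γ * q) * (R ^ ((d : ℝ) * q) * R ^ (d + 1))) := by
    calc _ = L * (((k0 ^ ((d : ℝ) * q))⁻¹ * (lam ^ (d + 1))⁻¹ * N ^ ((d : ℝ) + 1 + (d : ℝ) * q)) *
          (A0 * N ^ γ) ^ q * c) := by ring
      _ = _ := by
          rw [hcancel, hpow, hT]
          ring
  rw [hval] at h11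
  have hR1 : 1 ≤ R ^ (((m : ℝ) + 1) * γ) := Real.one_le_rpow hR (by positivity)
  have hD1 : 1 ≤ C0 ^ (1 / q) * R ^ (((m : ℝ) + 1) * γ) :=
    one_le_mul_of_one_le_of_one_le (Real.one_le_rpow hC1 (by positivity)) hR1
  refine Pool.Agent.R134.Kak.compare_large d hR hq1 hD1 ω f hf a h11 ?_ p hp
  rw [Real.mul_rpow (by positivity) (by positivity), ← Real.rpow_mul hC00.le, one_div_mul_cancel hq0.ne',
    Real.rpow_one, ← Real.rpow_mul hR0.le]
  have e2 : (κ * R ^ d) ^ q = κ ^ q * R ^ ((d : ℝ) * q) := by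
    rw [Real.mul_rpow hκ.le (by positivity), ← Real.rpow_natCast R d, ← Real.rpow_mul hR0.le]
  have h15 : κ ^ q * R ^ ((d : ℝ) * q) ≤ (Fintype.card ι : ℝ) ^ q := by
    rw [← e2]
    exact Real.rpow_le_rpow (by positivity) hcard hq0.le
  set S : ℝ := R ^ (((m : ℝ) + 1) * γ * q) with hS
  have hS0 : 0 < S := Real.rpow_pos_of_pos hR0 _
  have hRq : 0 < R ^ ((d : ℝ) * q) := Real.rpow_pos_of_pos hR0 _
  calc T * (S * (R ^ ((d : ℝ) * q) * R ^ (d + 1)))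
      = (T * (κ ^ q)⁻¹ * 2 ^ (d + 1) * (wv d)⁻¹) * S *
          ((κ ^ q * R ^ ((d : ℝ) * q)) * ((R / 2) ^ (d + 1) * wv d)) := by
        rw [div_pow]
        generalize R ^ ((d : ℝ) * q) = v at hRq ⊢
        generalize κ ^ q = u at hκq ⊢
        field_simp
    _ ≤ C0 * S * ((Fintype.card ι : ℝ) ^ q * ((R / 2) ^ (d + 1) * wv d)) := by
        have h16 : T * (κ ^ q)⁻¹ * 2 ^ (d + 1) * (wv d)⁻¹ ≤ C0 := by
          rw [hC0]
          linarith
        gcongr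

end Pool.Agent.J4.H89.NC
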